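import Mathlib

/-!
Abstract part: a greedy (unconditional and democratic) basis of a normed space admits an
equivalent `s`-norm for which the basis is `1`-greedy.
-/

set_option autoImplicit false

namespace Pool.Agent.D0H66.Gr

open Finset Filter Topology

/-- Data of a greedy basis. -/
structure GB {X : Type*} [NormedAddCommGroup X] [NormedSpace ℂ X]
    (e : ℕ → X) (φ : ℕ → X →L[ℂ] ℂ) (K : ℝ) : Prop where
  one_le : 1 ≤ K
  bi : ∀ m k, φ m (e k) = if m = k then 1 else 0
  expand : ∀ x, HasSum (fun m => φ m x • e m) x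
  mult : ∀ (F : Finset ℕ) (b c : ℕ → ℂ), (∀ j ∈ F, ‖b j‖ ≤ ‖c j‖) →
    ‖∑ j ∈ F, b j • e j‖ ≤ K * ‖∑ j ∈ F, c j • e j‖
  proj : ∀ (F : Finset ℕ) (x : X), ‖∑ j ∈ F, φ j x • e j‖ ≤ K * ‖x‖
  dem : ∀ (E G : Finset ℕ) (b c : ℕ → ℂ) (t : ℝ), E.card ≤ G.card → (∀ j ∈ E, ‖b j‖ ≤ t) →
    (∀ j ∈ G, t ≤ ‖c j‖) → ‖∑ j ∈ E, b j • e j‖ ≤ K * ‖∑ j ∈ G, c j • e j‖

variable {X : Type*} [NormedAddCommGroup X] [NormedSpace ℂ X]
  {e : ℕ → X} {φ : ℕ → X →L[ℂ] ℂ} {K : ℝ}

/-- `b` is admissible for the magnitudes `α`, the level `t` and the set `E`. -/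
def Adm (α : ℕ → ℝ) (t : ℝ) (E : Finset ℕ) (b : ℕ → ℂ) : Prop :=
  ∀ j, (j ∈ E ∧ ‖b j‖ ≤ t) ∨ (‖b j‖ ≤ α j ∧ α j < t) ∨ b j = 0

/-- The set of values over which the supremum is taken. -/
def Val (e : ℕ → X) (α : ℕ → ℝ) : Set ℝ :=
  {r | ∃ (t : ℝ) (D E F : Finset ℕ) (b : ℕ → ℂ), 0 < t ∧ (∀ j ∈ D, t ≤ α j) ∧ E.card ≤ D.card ∧
    Adm α t E b ∧ r = ‖∑ j ∈ F, b j • e j‖}

/-- The new functional. -/
noncomputable def NN (e : ℕ → X) (φ : ℕ → X →L[ℂ] ℂ) (x : X) : ℝ :=
  sSup (Val e (fun j => ‖φ j x‖))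

theorem zero_mem_Val (α : ℕ → ℝ) : (0:ℝ) ∈ Val e α := by
  refine ⟨1, ∅, ∅, ∅, fun _ => 0, one_pos, by simp, le_rfl, fun j => Or.inr (Or.inr rfl), by simp⟩

theorem Val_bound (H : GB e φ K) (x : X) {r : ℝ} (hr : r ∈ Val e (fun j => ‖φ j x‖)) :
    r ≤ 2 * K ^ 2 * ‖x‖ := by
  classical
  obtain ⟨t, D, E, F, b, ht, hD, hED, hb, rfl⟩ := hr
  have hK0 : 0 ≤ K := zero_le_one.trans H.one_le
  have hsplit : ∑ j ∈ F, b j • e j = ∑ j ∈ F.filter (· ∈ E), b j • e j +
      ∑ j ∈ F.filter (· ∉ E), b j • e j := (Finset.sum_filter_add_sum_filter_not F (· ∈ E) _).symm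
  have h1 : ‖∑ j ∈ F.filter (· ∈ E), b j • e j‖ ≤ K * (K * ‖x‖) := by
    refine (H.dem (F.filter (· ∈ E)) D b (fun j => φ j x) t ?_ ?_ hD).trans
      (mul_le_mul_of_nonneg_left (H.proj D x) hK0)
    · refine le_trans (Finset.card_le_card ?_) hED
      intro j hj
      exact (Finset.mem_filter.mp hj).2
    · intro j _
      rcases hb j with h | h | h
      · exact h.2
      · exact h.1.trans h.2.le
      · rw [h, norm_zero]; exact ht.le
  have h2 : ‖∑ j ∈ F.filter (· ∉ E), b j • e j‖ ≤ K * (K * ‖x‖) := by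
    refine (H.mult (F.filter (· ∉ E)) b (fun j => φ j x) ?_).trans
      (mul_le_mul_of_nonneg_left (H.proj _ x) hK0)
    intro j hj
    rcases hb j with h | h | h
    · exact absurd h.1 (Finset.mem_filter.mp hj).2
    · exact h.1
    · rw [h, norm_zero]; exact norm_nonneg _
  rw [hsplit]
  refine (norm_add_le _ _).trans ?_
  nlinarith [h1, h2]

theorem Val_bddAbove (H : GB e φ K) (x : X) : BddAbove (Val e (fun j => ‖φ j x‖)) :=
  ⟨2 * K ^ 2 * ‖x‖, fun _ hr => Val_bound H x hr⟩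

theorem Val_nonempty (α : ℕ → ℝ) : (Val e α).Nonempty := ⟨0, zero_mem_Val α⟩

theorem le_NN (H : GB e φ K) (x : X) {r : ℝ} (hr : r ∈ Val e (fun j => ‖φ j x‖)) :
    r ≤ NN e φ x := le_csSup (Val_bddAbove H x) hr

theorem NN_nonneg (H : GB e φ K) (x : X) : 0 ≤ NN e φ x := le_NN H x (zero_mem_Val _)

theorem NN_le (H : GB e φ K) (x : X) : NN e φ x ≤ 2 * K ^ 2 * ‖x‖ :=
  csSup_le (Val_nonempty _) (fun _ hr => Val_bound H x hr)

/-- lower bound -/
theorem norm_le_NN (H : GB e φ K) (x : X) : ‖x‖ ≤ NN e φ x := by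
  classical
  have h1 : ∀ F : Finset ℕ, ‖∑ j ∈ F, φ j x • e j‖ ≤ NN e φ x := by
    intro F
    apply le_NN H
    refine ⟨1 + ∑ j ∈ F, ‖φ j x‖, ∅, ∅, F, fun j => if j ∈ F then φ j x else 0, ?_, by simp,
      le_rfl, ?_, ?_⟩
    · have : 0 ≤ ∑ j ∈ F, ‖φ j x‖ := Finset.sum_nonneg fun j _ => norm_nonneg _
      linarith
    · intro j
      by_cases hj : j ∈ F
      · right; left
        simp only [if_pos hj]
        refine ⟨le_rfl, ?_⟩
        have : ‖φ j x‖ ≤ ∑ j ∈ F, ‖φ j x‖ :=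
          Finset.single_le_sum (f := fun j => ‖φ j x‖) (fun i _ => norm_nonneg _) hj
        linarith
      · right; right
        simp only [if_neg hj]
    · congr 1
      refine Finset.sum_congr rfl fun j hj => ?_
      simp only [if_pos hj]
  exact le_of_tendsto (H.expand x).norm (Eventually.of_forall h1)

theorem Val_smul (α : ℕ → ℝ) (c : ℂ) (hc : c ≠ 0) {r : ℝ} (hr : r ∈ Val e α) :
    ‖c‖ * r ∈ Val e (fun j => ‖c‖ * α j) := by
  obtain ⟨t, D, E, F, b, ht, hD, hED, hb, rfl⟩ := hr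
  have hc0 : 0 < ‖c‖ := norm_pos_iff.mpr hc
  refine ⟨‖c‖ * t, D, E, F, fun j => c * b j, by positivity, ?_, hED, ?_, ?_⟩
  · intro j hj
    exact mul_le_mul_of_nonneg_left (hD j hj) hc0.le
  · intro j
    rcases hb j with h | h | h
    · left
      exact ⟨h.1, by rw [norm_mul]; exact mul_le_mul_of_nonneg_left h.2 hc0.le⟩
    · right; left
      refine ⟨by rw [norm_mul]; exact mul_le_mul_of_nonneg_left h.1 hc0.le, ?_⟩
      exact mul_lt_mul_of_pos_left h.2 hc0
    · right; right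
      simp only [h, mul_zero]
  · rw [← norm_smul, Finset.smul_sum]
    congr 1
    refine Finset.sum_congr rfl fun j _ => ?_
    rw [smul_smul]

theorem NN_smul_le (H : GB e φ K) (c : ℂ) (hc : c ≠ 0) (x : X) :
    ‖c‖ * NN e φ x ≤ NN e φ (c • x) := by
  have hc0 : 0 < ‖c‖ := norm_pos_iff.mpr hc
  rw [mul_comm, ← le_div_iff₀ hc0]
  apply csSup_le (Val_nonempty _)
  intro r hr
  rw [le_div_iff₀ hc0, mul_comm]
  apply le_NN H
  have h := Val_smul (e := e) _ c hc hr
  have e1 : (fun j => ‖φ j (c • x)‖) = fun j => ‖c‖ * ‖φ j x‖ := by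
    funext j
    rw [map_smul, smul_eq_mul, norm_mul]
  rw [e1]
  exact h

theorem NN_zero (H : GB e φ K) : NN e φ (0 : X) = 0 := by
  have h1 := NN_le H (0 : X)
  rw [norm_zero, mul_zero] at h1
  exact le_antisymm h1 (NN_nonneg H 0)

theorem NN_smul (H : GB e φ K) (c : ℂ) (x : X) : NN e φ (c • x) = ‖c‖ * NN e φ x := by
  rcases eq_or_ne c 0 with rfl | hc
  · rw [zero_smul, NN_zero H, norm_zero, zero_mul]
  · apply le_antisymm _ (NN_smul_le H c hc x)
    have h := NN_smul_le H c⁻¹ (inv_ne_zero hc) (c • x)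
    rw [smul_smul, inv_mul_cancel₀ hc, one_smul, norm_inv] at h
    have hc0 : 0 < ‖c‖ := norm_pos_iff.mpr hc
    rwa [inv_mul_le_iff₀ hc0] at h

theorem NN_eq_zero_iff (H : GB e φ K) (x : X) : NN e φ x = 0 ↔ x = 0 := by
  constructor
  · intro h
    have h1 := norm_le_NN H x
    rw [h] at h1
    exact norm_le_zero_iff.mp h1
  · rintro rfl
    exact NN_zero H

/-- The key set-theoretic step for the greedy property. -/
theorem Val_greedy (α β γ : ℕ → ℝ) (A B : Finset ℕ) (hBA : B.card ≤ A.card)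
    (hα : ∀ j, 0 ≤ α j) (hA : ∀ i ∈ A, ∀ j, j ∉ A → α j ≤ α i)
    (hβ0 : ∀ j ∈ A, β j = 0) (hβ1 : ∀ j, j ∉ A → β j = α j)
    (hγ : ∀ j, j ∉ B → γ j = α j) : Val e β ⊆ Val e γ := by
  classical
  rintro r ⟨t, D, E, F, b, ht, hD, hED, hb, rfl⟩
  have hAB : (B \ A).card ≤ (A \ B).card := by
    have h1 := Finset.card_sdiff_add_card_inter B A
    have h2 := Finset.card_sdiff_add_card_inter A B
    rw [Finset.inter_comm] at h1
    omega
  have hDA : ∀ j ∈ D, j ∉ A := by
    intro j hj hjA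
    have := hD j hj
    rw [hβ0 j hjA] at this
    linarith
  by_cases hc : ∀ i ∈ A, t ≤ α i
  · -- first case
    refine ⟨t, (D \ B) ∪ (A \ B), E ∪ (B \ A).filter (fun j => α j < t), F, b, ht, ?_, ?_, ?_, rfl⟩
    · intro j hj
      rcases Finset.mem_union.mp hj with h | h
      · obtain ⟨h1, h2⟩ := Finset.mem_sdiff.mp h
        rw [hγ j h2, ← hβ1 j (hDA j h1)]
        exact hD j h1
      · obtain ⟨h1, h2⟩ := Finset.mem_sdiff.mp h
        rw [hγ j h2]
        exact hc j h1
    · have h1 : Disjoint (D \ B) (A \ B) := by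
        rw [Finset.disjoint_left]
        intro j hj1 hj2
        exact hDA j (Finset.mem_sdiff.mp hj1).1 (Finset.mem_sdiff.mp hj2).1
      rw [Finset.card_union_of_disjoint h1]
      refine (Finset.card_union_le _ _).trans ?_
      have h2 : (D ∩ B).card + ((B \ A).filter (fun j => α j < t)).card ≤ (B \ A).card := by
        rw [← Finset.card_union_of_disjoint]
        · apply Finset.card_le_card
          intro j hj
          rcases Finset.mem_union.mp hj with h | h
          · obtain ⟨h3, h4⟩ := Finset.mem_inter.mp h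
            exact Finset.mem_sdiff.mpr ⟨h4, hDA j h3⟩
          · exact (Finset.mem_filter.mp h).1
        · rw [Finset.disjoint_left]
          intro j hj1 hj2
          have h3 := (Finset.mem_inter.mp hj1).1
          have h4 := (Finset.mem_filter.mp hj2).2
          have h5 := hD j h3
          rw [hβ1 j (hDA j h3)] at h5
          linarith
      have h3 := Finset.card_sdiff_add_card_inter D B
      omega
    · intro j
      rcases hb j with h | h | h
      · left
        exact ⟨Finset.mem_union_left _ h.1, h.2⟩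
      · by_cases hjA : j ∈ A
        · right; right
          rw [hβ0 j hjA] at h
          exact norm_le_zero_iff.mp h.1
        · rw [hβ1 j hjA] at h
          by_cases hjB : j ∈ B
          · left
            refine ⟨Finset.mem_union_right _ ?_, h.1.trans h.2.le⟩
            exact Finset.mem_filter.mpr ⟨Finset.mem_sdiff.mpr ⟨hjB, hjA⟩, h.2⟩
          · right; left
            rw [hγ j hjB]
            exact h
      · right; right; exact h
  · -- second case
    push Not at hc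
    obtain ⟨i₀, hi₀, hi₀t⟩ := hc
    obtain ⟨i₁, hi₁, hmin⟩ := Finset.exists_min_image A α ⟨i₀, hi₀⟩
    have hlt : α i₁ < t := lt_of_le_of_lt (hmin i₀ hi₀) hi₀t
    have hD0 : D = ∅ := by
      rw [Finset.eq_empty_iff_forall_notMem]
      intro j hj
      have h1 := hD j hj
      rw [hβ1 j (hDA j hj)] at h1
      have h2 := hA i₁ hi₁ j (hDA j hj)
      linarith
    have hE0 : E = ∅ := by
      rw [hD0, Finset.card_empty] at hED
      exact Finset.card_eq_zero.mp (Nat.le_zero.mp hED)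
    have hbα : ∀ j, b j ≠ 0 → j ∉ A ∧ ‖b j‖ ≤ α j := by
      intro j hj
      rcases hb j with h | h | h
      · rw [hE0] at h
        exact absurd h.1 (Finset.notMem_empty j)
      · by_cases hjA : j ∈ A
        · rw [hβ0 j hjA] at h
          exact absurd (norm_le_zero_iff.mp h.1) hj
        · rw [hβ1 j hjA] at h
          exact ⟨hjA, h.1⟩
      · exact absurd h hj
    rcases eq_or_lt_of_le (hα i₁) with h0 | h0
    · -- everything vanishes
      have hb0 : ∀ j, b j = 0 := by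
        intro j
        by_contra hj
        obtain ⟨h1, h2⟩ := hbα j hj
        have h3 := hA i₁ hi₁ j h1
        rw [← h0] at h3
        exact hj (norm_le_zero_iff.mp (h2.trans h3))
      have : (∑ j ∈ F, b j • e j) = 0 := by
        apply Finset.sum_eq_zero
        intro j _
        rw [hb0 j, zero_smul]
      rw [this, norm_zero]
      exact zero_mem_Val γ
    · set Q : Finset ℕ := F.filter (fun j => j ∉ A ∧ j ∉ B ∧ α j = α i₁) with hQ
      refine ⟨α i₁, (A \ B) ∪ Q, (B \ A) ∪ Q, F, fun j => if j ∈ F then b j else 0, h0, ?_, ?_, ?_, ?_⟩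
      · intro j hj
        rcases Finset.mem_union.mp hj with h | h
        · obtain ⟨h1, h2⟩ := Finset.mem_sdiff.mp h
          rw [hγ j h2]
          exact hmin j h1
        · obtain ⟨_, _, h2, h3⟩ := Finset.mem_filter.mp h
          rw [hγ j h2, h3]
      · have h1 : Disjoint (A \ B) Q := by
          rw [Finset.disjoint_left]
          intro j hj1 hj2
          exact (Finset.mem_filter.mp hj2).2.1 (Finset.mem_sdiff.mp hj1).1
        rw [Finset.card_union_of_disjoint h1]
        refine (Finset.card_union_le _ _).trans ?_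
        omega
      · intro j
        by_cases hjF : j ∈ F
        · simp only [if_pos hjF]
          by_cases hj0 : b j = 0
          · right; right; exact hj0
          obtain ⟨hjA, h2⟩ := hbα j hj0
          have h3 := hA i₁ hi₁ j hjA
          by_cases hjB : j ∈ B
          · left
            exact ⟨Finset.mem_union_left _ (Finset.mem_sdiff.mpr ⟨hjB, hjA⟩), h2.trans h3⟩
          · rcases eq_or_lt_of_le h3 with h4 | h4
            · left
              refine ⟨Finset.mem_union_right _ ?_, h2.trans h3⟩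
              exact Finset.mem_filter.mpr ⟨hjF, hjA, hjB, h4⟩
            · right; left
              rw [hγ j hjB]
              exact ⟨h2, h4⟩
        · right; right
          simp only [if_neg hjF]
      · congr 1
        refine Finset.sum_congr rfl fun j hj => ?_
        simp only [if_pos hj]

/-- The basis is `1`-greedy for the new functional. -/
theorem NN_greedy (H : GB e φ K) (x : X) (A B : Finset ℕ) (b : ℕ → ℂ) (hBA : B.card ≤ A.card)
    (hA : ∀ i ∈ A, ∀ j, j ∉ A → ‖φ j x‖ ≤ ‖φ i x‖) :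
    NN e φ (x - ∑ j ∈ A, φ j x • e j) ≤ NN e φ (x - ∑ j ∈ B, b j • e j) := by
  classical
  apply csSup_le_csSup (Val_bddAbove H _) (Val_nonempty _)
  have hc : ∀ (s : Finset ℕ) (a : ℕ → ℂ) (m : ℕ),
      φ m (∑ k ∈ s, a k • e k) = if m ∈ s then a m else 0 := by
    intro s a m
    rw [map_sum]
    simp only [map_smul, H.bi, smul_eq_mul, mul_ite, mul_one, mul_zero]
    rw [Finset.sum_ite_eq]
  apply Val_greedy (fun j => ‖φ j x‖) _ _ A B hBA (fun j => norm_nonneg _) hA
  · intro j hj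
    rw [map_sub, hc, if_pos hj, sub_self, norm_zero]
  · intro j hj
    rw [map_sub, hc, if_neg hj, sub_zero]
  · intro j hj
    rw [map_sub, hc, if_neg hj, sub_zero]

/-- Splitting a finite set according to two cardinalities. -/
theorem exists_split {E : Finset ℕ} {m n : ℕ} (h : E.card ≤ m + n) :
    ∃ E₁ E₂ : Finset ℕ, Disjoint E₁ E₂ ∧ E₁ ∪ E₂ = E ∧ E₁.card ≤ m ∧ E₂.card ≤ n := by
  classical
  rcases le_total E.card m with h1 | h1
  · exact ⟨E, ∅, Finset.disjoint_empty_right E, Finset.union_empty E, h1, by simp⟩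
  · obtain ⟨E₁, h2, h3⟩ := Finset.exists_subset_card_eq h1
    refine ⟨E₁, E \ E₁, Finset.disjoint_sdiff, Finset.union_sdiff_of_subset h2, h3.le, ?_⟩
    rw [Finset.card_sdiff_of_subset h2]
    omega

/-- The quantitative almost-triangle inequality. -/
theorem NN_add_le (H : GB e φ K) (x y : X) (δ : ℝ) (hδ0 : 0 < δ) (hδ1 : δ < 1) :
    NN e φ (x + y) ≤ NN e φ x / (1 - δ) + (2 * K ^ 2 / δ) * ‖y‖ := by
  classical
  have hK0 : 0 ≤ K := zero_le_one.trans H.one_le
  have hδ' : 0 < 1 - δ := by linarith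
  apply csSup_le (Val_nonempty _)
  rintro r ⟨t, D, E, F, b, ht, hD, hED, hb, rfl⟩
  have hadd : ∀ j, ‖φ j (x + y)‖ ≤ ‖φ j x‖ + ‖φ j y‖ := by
    intro j
    rw [map_add]
    exact norm_add_le _ _
  set KF : Finset ℕ := F.filter (fun j => (1 - δ) * t ≤ ‖φ j x‖ ∧ ‖φ j (x + y)‖ < t) with hKF
  set D₁ : Finset ℕ := D.filter (fun j => (1 - δ) * t ≤ ‖φ j x‖) with hD₁
  set D₂ : Finset ℕ := D.filter (fun j => ¬ (1 - δ) * t ≤ ‖φ j x‖) with hD₂
  have hDcard : D₁.card + D₂.card = D.card := Finset.card_filter_add_card_filter_not _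
  have hdisj : Disjoint D₁ KF := by
    rw [Finset.disjoint_left]
    intro j hj1 hj2
    have h1 := hD j (Finset.mem_filter.mp hj1).1
    have h2 := (Finset.mem_filter.mp hj2).2.2
    simp only at h1
    linarith
  have hcard : (E ∪ KF).card ≤ (D₁ ∪ KF).card + D₂.card := by
    rw [Finset.card_union_of_disjoint hdisj]
    have := Finset.card_union_le E KF
    omega
  obtain ⟨E₁, E₂, hE12, hEu, hE1, hE2⟩ := exists_split hcard
  -- bounds on `b`
  have hbt : ∀ j, ‖b j‖ ≤ t := by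
    intro j
    rcases hb j with h | h | h
    · exact h.2
    · exact h.1.trans h.2.le
    · rw [h, norm_zero]; exact ht.le
  -- the three pieces
  set w : ℕ → ℝ := fun j => ‖φ j x‖ / (‖φ j x‖ + ‖φ j y‖) with hw
  have hw0 : ∀ j, 0 ≤ w j := fun j => by positivity
  have hw1 : ∀ j, w j ≤ 1 := by
    intro j
    apply div_le_one_of_le₀ _ (by positivity)
    linarith [norm_nonneg (φ j y)]
  set b1 : ℕ → ℂ := fun j => if j ∈ F then (if j ∈ E₁ then b j else if j ∈ E₂ then 0 else (w j : ℂ) * b j)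
    else 0 with hb1
  set b2 : ℕ → ℂ := fun j => if j ∈ E₂ then b j else 0 with hb2
  set b3 : ℕ → ℂ := fun j => if j ∈ E₁ ∪ E₂ then 0 else ((1 - w j : ℝ) : ℂ) * b j with hb3
  have hsum : ∑ j ∈ F, b j • e j = ∑ j ∈ F, b1 j • e j + ∑ j ∈ F, b2 j • e j +
      ∑ j ∈ F, b3 j • e j := by
    rw [← Finset.sum_add_distrib, ← Finset.sum_add_distrib]
    refine Finset.sum_congr rfl fun j hj => ?_
    rw [← add_smul, ← add_smul]
    congr 1
    simp only [hb1, hb2, hb3, if_pos hj, Finset.mem_union]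
    by_cases h1 : j ∈ E₁
    · have h2 : j ∉ E₂ := fun h => (Finset.disjoint_left.mp hE12) h1 h
      simp [h1, h2]
    · by_cases h2 : j ∈ E₂
      · simp [h1, h2]
      · simp only [h1, h2, if_false, or_self]
        push_cast
        ring
  -- outside `E₁ ∪ E₂`
  have hout : ∀ j ∈ F, j ∉ E₁ → j ∉ E₂ → b j ≠ 0 →
      ‖b j‖ ≤ ‖φ j x‖ + ‖φ j y‖ ∧ ‖φ j x‖ < (1 - δ) * t := by
    intro j hjF h1 h2 h0
    have hjn : j ∉ E ∪ KF := by
      rw [← hEu]
      simp [h1, h2]
    rw [Finset.mem_union, not_or] at hjn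
    rcases hb j with h | h | h
    · exact absurd h.1 hjn.1
    · refine ⟨h.1.trans (hadd j), ?_⟩
      by_contra hcon
      rw [not_lt] at hcon
      exact hjn.2 (Finset.mem_filter.mpr ⟨hjF, hcon, h.2⟩)
    · exact absurd h h0
  have hwx : ∀ j ∈ F, j ∉ E₁ → j ∉ E₂ → ‖(w j : ℂ) * b j‖ ≤ ‖φ j x‖ ∧
      ‖((1 - w j : ℝ) : ℂ) * b j‖ ≤ ‖φ j y‖ := by
    intro j hjF h1 h2
    by_cases h0 : b j = 0
    · rw [h0, mul_zero, mul_zero, norm_zero]
      exact ⟨norm_nonneg _, norm_nonneg _⟩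
    obtain ⟨h3, _⟩ := hout j hjF h1 h2 h0
    have hpos : 0 < ‖φ j x‖ + ‖φ j y‖ := lt_of_lt_of_le (norm_pos_iff.mpr h0) h3
    have e1 : w j * (‖φ j x‖ + ‖φ j y‖) = ‖φ j x‖ := by
      rw [hw]
      simp only
      rw [div_mul_cancel₀ _ hpos.ne']
    rw [norm_mul, norm_mul, Complex.norm_real, Complex.norm_real, Real.norm_of_nonneg (hw0 j),
      Real.norm_of_nonneg (by linarith [hw1 j])]
    constructor
    · have := mul_le_mul_of_nonneg_left h3 (hw0 j)
      linarith
    · have := mul_le_mul_of_nonneg_left h3 (show 0 ≤ 1 - w j by linarith [hw1 j])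
      linarith
  have hp1 : (1 - δ) * ‖∑ j ∈ F, b1 j • e j‖ ≤ NN e φ x := by
    apply le_NN H
    refine ⟨(1 - δ) * t, D₁ ∪ KF, E₁, F, fun j => ((1 - δ : ℝ) : ℂ) * b1 j, by positivity, ?_, hE1,
      ?_, ?_⟩
    · intro j hj
      rcases Finset.mem_union.mp hj with h | h
      · exact (Finset.mem_filter.mp h).2
      · exact (Finset.mem_filter.mp h).2.1
    · intro j
      by_cases hjF : j ∈ F
      · by_cases h1 : j ∈ E₁
        · left
          refine ⟨h1, ?_⟩
          simp only [hb1, if_pos hjF, if_pos h1]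
          rw [norm_mul, Complex.norm_real, Real.norm_of_nonneg hδ'.le]
          exact mul_le_mul_of_nonneg_left (hbt j) hδ'.le
        · by_cases h2 : j ∈ E₂
          · right; right
            simp only [hb1, if_pos hjF, if_neg h1, if_pos h2, mul_zero]
          · by_cases h0 : b j = 0
            · right; right
              simp only [hb1, if_pos hjF, if_neg h1, if_neg h2, h0, mul_zero]
            · right; left
              simp only [hb1, if_pos hjF, if_neg h1, if_neg h2]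
              refine ⟨?_, (hout j hjF h1 h2 h0).2⟩
              rw [norm_mul, Complex.norm_real, Real.norm_of_nonneg hδ'.le]
              have h3 := (hwx j hjF h1 h2).1
              have h4 : (1 - δ) * ‖(w j : ℂ) * b j‖ ≤ 1 * ‖(w j : ℂ) * b j‖ :=
                mul_le_mul_of_nonneg_right (by linarith) (norm_nonneg _)
              linarith
      · right; right
        simp only [hb1, if_neg hjF, mul_zero]
    · have e1 : ∑ j ∈ F, (((1 - δ : ℝ) : ℂ) * b1 j) • e j = ((1 - δ : ℝ) : ℂ) • ∑ j ∈ F, b1 j • e j := by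
        rw [Finset.smul_sum]
        refine Finset.sum_congr rfl fun j _ => ?_
        rw [smul_smul]
      rw [e1, norm_smul, Complex.norm_real, Real.norm_of_nonneg hδ'.le]
  have hp2 : ‖∑ j ∈ F, b2 j • e j‖ ≤ K * (K * ‖y‖ / δ) := by
    have e1 : ∑ j ∈ F, b2 j • e j = ∑ j ∈ F.filter (· ∈ E₂), b j • e j := by
      rw [Finset.sum_filter]
      refine Finset.sum_congr rfl fun j _ => ?_
      simp only [hb2]
      split_ifs <;> simp
    rw [e1]
    have h1 := H.dem (F.filter (· ∈ E₂)) D₂ b (fun j => ((δ⁻¹ : ℝ) : ℂ) * φ j y) t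
      ((Finset.card_le_card (fun j hj => (Finset.mem_filter.mp hj).2)).trans hE2)
      (fun j _ => hbt j) (by
        intro j hj
        obtain ⟨h2, h3⟩ := Finset.mem_filter.mp hj
        rw [not_le] at h3
        have h4 : t ≤ ‖φ j (x + y)‖ := hD j h2
        have h5 := hadd j
        rw [norm_mul, Complex.norm_real, Real.norm_of_nonneg (inv_pos.mpr hδ0).le,
          le_inv_mul_iff₀ hδ0]
        linarith)
    refine h1.trans (mul_le_mul_of_nonneg_left ?_ hK0)
    have e2 : ∑ j ∈ D₂, (((δ⁻¹ : ℝ) : ℂ) * φ j y) • e j = ((δ⁻¹ : ℝ) : ℂ) • ∑ j ∈ D₂, φ j y • e j := by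
      rw [Finset.smul_sum]
      refine Finset.sum_congr rfl fun j _ => ?_
      rw [smul_smul]
    rw [e2, norm_smul, Complex.norm_real, Real.norm_of_nonneg (inv_pos.mpr hδ0).le, div_eq_inv_mul]
    exact mul_le_mul_of_nonneg_left (H.proj D₂ y) (inv_pos.mpr hδ0).le
  have hp3 : ‖∑ j ∈ F, b3 j • e j‖ ≤ K * (K * ‖y‖) := by
    refine (H.mult F b3 (fun j => φ j y) ?_).trans (mul_le_mul_of_nonneg_left (H.proj F y) hK0)
    intro j hj
    simp only [hb3, Finset.mem_union]
    by_cases h1 : j ∈ E₁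
    · simp [h1]
    · by_cases h2 : j ∈ E₂
      · simp [h2]
      · simp only [h1, h2, or_self, if_false]
        exact (hwx j hj h1 h2).2
  have hp1' : ‖∑ j ∈ F, b1 j • e j‖ ≤ NN e φ x / (1 - δ) := by
    rw [le_div_iff₀ hδ', mul_comm]
    exact hp1
  have hfin : K * (K * ‖y‖ / δ) + K * (K * ‖y‖) ≤ (2 * K ^ 2 / δ) * ‖y‖ := by
    have h1 : K * (K * ‖y‖) ≤ K * (K * ‖y‖ / δ) := by
      apply mul_le_mul_of_nonneg_left _ hK0
      rw [le_div_iff₀ hδ0]
      have : 0 ≤ K * ‖y‖ := by positivity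
      nlinarith
    have h2 : (2 * K ^ 2 / δ) * ‖y‖ = 2 * (K * (K * ‖y‖ / δ)) := by ring
    rw [h2]
    linarith
  rw [hsum]
  refine (norm_add₃_le).trans ?_
  linarith

/-- Numerical lemma turning the almost-triangle inequality into an `s`-triangle inequality. -/
theorem num_aux {A B Z M : ℝ} (hM : 0 ≤ M) (hB : 0 ≤ B) (hBA : B ≤ A) (hZ0 : 0 ≤ Z)
    (h : ∀ δ : ℝ, 0 < δ → δ < 1 → Z ≤ A / (1 - δ) + (M / δ) * B) :
    Z ^ (1 / (2 * (1 + 2 * M))) ≤ A ^ (1 / (2 * (1 + 2 * M))) + B ^ (1 / (2 * (1 + 2 * M))) := by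
  set κ := 1 + 2 * M with hκ
  have hκ1 : 1 ≤ κ := by rw [hκ]; linarith
  set s := 1 / (2 * κ) with hs
  have hs0 : 0 < s := by rw [hs]; positivity
  have hsκ : s * κ = 1 / 2 := by rw [hs]; field_simp
  have hs2 : s ≤ 1 / 2 := by nlinarith
  rcases eq_or_lt_of_le hB with hB0 | hB0
  · rw [← hB0] at h ⊢
    rw [Real.zero_rpow hs0.ne', add_zero]
    apply Real.rpow_le_rpow hZ0 _ hs0.le
    simp only [mul_zero, add_zero] at h
    -- let `δ → 0`
    have hlim : Tendsto (fun δ : ℝ => A / (1 - δ)) (𝓝[>] 0) (𝓝 (A / (1 - 0))) := by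
      apply Tendsto.mono_left _ nhdsWithin_le_nhds
      apply Tendsto.div tendsto_const_nhds
      · exact tendsto_const_nhds.sub tendsto_id
      · norm_num
    rw [sub_zero, div_one] at hlim
    apply ge_of_tendsto hlim
    filter_upwards [Ioo_mem_nhdsGT (show (0:ℝ) < 1 by norm_num)] with δ hδ
    exact h δ hδ.1 hδ.2
  · have hA0 : 0 < A := lt_of_lt_of_le hB0 hBA
    set ε := B / A with hε
    have hε0 : 0 < ε := by positivity
    have hε1 : ε ≤ 1 := by rw [hε, div_le_one hA0]; exact hBA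
    have hBε : B = ε * A := by rw [hε]; field_simp
    set q := Real.sqrt ε with hq
    have hq0 : 0 < q := Real.sqrt_pos.mpr hε0
    have hq1 : q ≤ 1 := by rw [hq]; exact Real.sqrt_le_one.mpr hε1
    have hqq : q * q = ε := Real.mul_self_sqrt hε0.le
    have h1 := h (q / 2) (by positivity) (by linarith)
    have h2 : A / (1 - q / 2) ≤ A * (1 + q) := by
      rw [div_le_iff₀ (by linarith)]
      nlinarith [mul_nonneg hA0.le (mul_nonneg hq0.le (sub_nonneg.mpr hq1))]
    have h3 : (M / (q / 2)) * B = A * (2 * M * q) := by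
      rw [hBε, ← hqq]
      field_simp
    have h4 : Z ≤ A * (1 + κ * q) := by
      rw [h3] at h1
      have : A * (1 + κ * q) = A * (1 + q) + A * (2 * M * q) := by rw [hκ]; ring
      rw [this]
      linarith
    have h5 : Z ^ s ≤ A ^ s * (1 + κ * q) ^ s := by
      rw [← Real.mul_rpow hA0.le (by positivity)]
      exact Real.rpow_le_rpow hZ0 h4 hs0.le
    have h6 : (1 + κ * q) ^ s ≤ 1 + s * (κ * q) :=
      rpow_one_add_le_one_add_mul_self (by nlinarith [mul_pos (show 0 < κ by linarith) hq0]) hs0.le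
        (by linarith)
    have h7 : s * (κ * q) ≤ ε ^ s := by
      have e1 : s * (κ * q) = (1 / 2) * q := by rw [← mul_assoc, hsκ]
      have e2 : q ≤ ε ^ s := by
        rw [hq, Real.sqrt_eq_rpow]
        exact Real.rpow_le_rpow_of_exponent_ge hε0 hε1 hs2
      rw [e1]
      linarith
    have hAs : 0 < A ^ s := Real.rpow_pos_of_pos hA0 s
    have h8 : B ^ s = A ^ s * ε ^ s := by
      rw [hBε, Real.mul_rpow hε0.le hA0.le, mul_comm]
    rw [h8]
    calc Z ^ s ≤ A ^ s * (1 + κ * q) ^ s := h5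
      _ ≤ A ^ s * (1 + ε ^ s) := by
        apply mul_le_mul_of_nonneg_left _ hAs.le
        linarith
      _ = A ^ s + A ^ s * ε ^ s := by ring

/-- The exponent. -/
noncomputable def sexp (K : ℝ) : ℝ := 1 / (2 * (1 + 2 * (2 * K ^ 2)))

theorem sexp_pos (K : ℝ) : 0 < sexp K := by unfold sexp; positivity

theorem sexp_lt_one (K : ℝ) : sexp K < 1 := by
  unfold sexp
  rw [div_lt_one (by positivity)]
  nlinarith [sq_nonneg K]

/-- The functional is an `s`-norm. -/
theorem NN_add_rpow (H : GB e φ K) (x y : X) :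
    NN e φ (x + y) ^ sexp K ≤ NN e φ x ^ sexp K + NN e φ y ^ sexp K := by
  have hM : (0:ℝ) ≤ 2 * K ^ 2 := by positivity
  have key : ∀ x y : X, ∀ δ : ℝ, 0 < δ → δ < 1 →
      NN e φ (x + y) ≤ NN e φ x / (1 - δ) + (2 * K ^ 2 / δ) * NN e φ y := by
    intro x y δ h0 h1
    refine (NN_add_le H x y δ h0 h1).trans ?_
    have := mul_le_mul_of_nonneg_left (norm_le_NN H y) (show 0 ≤ 2 * K ^ 2 / δ by positivity)
    linarith
  rcases le_total (NN e φ y) (NN e φ x) with h | h
  · exact num_aux hM (NN_nonneg H y) h (NN_nonneg H _) (key x y)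
  · rw [add_comm (NN e φ x ^ sexp K)]
    refine num_aux hM (NN_nonneg H x) h (NN_nonneg H _) ?_
    intro δ h0 h1
    rw [add_comm x y]
    exact key y x δ h0 h1

end Pool.Agent.D0H66.Gr
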