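import Mathlib

/-!
Definitions for the statement: the `L_p`-normalised Haar system on `[0,1]`, `s`-norms,
equivalence of functionals, basis expansions and the `1`-greedy property.
-/

set_option autoImplicit false

namespace Pool.Agent.D0H66.HaarGreedy

open Filter Topology MeasureTheory
open scoped ENNReal

/-- Lebesgue measure on `[0,1]`. -/
noncomputable abbrev unitMeasure : Measure ℝ := volume.restrict (Set.Icc (0:ℝ) 1)

/-- For `n ≥ 0` and `0 ≤ k < 2^n`, the `L_p`-normalised Haar function: it equals `2^(n/p)` on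
`[k/2^n, (k+1/2)/2^n)`, `-2^(n/p)` on `[(k+1/2)/2^n, (k+1)/2^n)` and `0` elsewhere.  (Here `k` is the
usual index lowered by one.) -/
noncomputable def haarNK (p : ℝ) (n k : ℕ) (t : ℝ) : ℝ :=
  (2:ℝ) ^ ((n:ℝ) / p) *
    ((Set.Ico ((k:ℝ) / 2 ^ n) (((k:ℝ) + 1 / 2) / 2 ^ n)).indicator (fun _ => (1:ℝ)) t -
     (Set.Ico (((k:ℝ) + 1 / 2) / 2 ^ n) (((k:ℝ) + 1) / 2 ^ n)).indicator (fun _ => (1:ℝ)) t)

/-- The Haar system enumerated by `ℕ`: first the indicator of `[0,1)`, then the functions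
`haarNK p n k` in the usual order, the pair `(n,k)` having number `2^n + k`. -/
noncomputable def haarFun (p : ℝ) (m : ℕ) (t : ℝ) : ℝ :=
  if m = 0 then (Set.Ico (0:ℝ) 1).indicator (fun _ => (1:ℝ)) t
  else haarNK p (Nat.log 2 m) (m - 2 ^ Nat.log 2 m) t

theorem haarFun_measurable (p : ℝ) (m : ℕ) : Measurable (haarFun p m) := by
  unfold haarFun
  split_ifs
  · exact measurable_const.indicator measurableSet_Ico
  · unfold haarNK
    exact ((measurable_const.indicator measurableSet_Ico).sub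
      (measurable_const.indicator measurableSet_Ico)).const_mul _

theorem haarFun_bound (p : ℝ) (m : ℕ) (t : ℝ) :
    |haarFun p m t| ≤ 2 * (2:ℝ) ^ ((Nat.log 2 m : ℝ) / p) := by
  unfold haarFun
  have h0 : (0:ℝ) < (2:ℝ) ^ ((Nat.log 2 m : ℝ) / p) := by positivity
  split_ifs with h
  · subst h
    by_cases ht : t ∈ Set.Ico (0:ℝ) 1
    · rw [Set.indicator_of_mem ht]
      norm_num
    · rw [Set.indicator_of_notMem ht]
      norm_num
  · unfold haarNK
    rw [abs_mul, abs_of_pos h0, mul_comm]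
    apply mul_le_mul_of_nonneg_right _ h0.le
    have h1 : ∀ s : Set ℝ, |s.indicator (fun _ => (1:ℝ)) t| ≤ 1 := by
      intro s
      by_cases hs : t ∈ s
      · rw [Set.indicator_of_mem hs]; norm_num
      · rw [Set.indicator_of_notMem hs]; norm_num
    refine (abs_sub _ _).trans ?_
    linarith [h1 (Set.Ico (((m - 2 ^ Nat.log 2 m : ℕ):ℝ) / 2 ^ (Nat.log 2 m))
      ((((m - 2 ^ Nat.log 2 m : ℕ):ℝ) + 1 / 2) / 2 ^ (Nat.log 2 m))),
      h1 (Set.Ico ((((m - 2 ^ Nat.log 2 m : ℕ):ℝ) + 1 / 2) / 2 ^ (Nat.log 2 m))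
      ((((m - 2 ^ Nat.log 2 m : ℕ):ℝ) + 1) / 2 ^ (Nat.log 2 m)))]

theorem haarFun_memLp (𝕜 : Type) [RCLike 𝕜] (q : ℝ) (m : ℕ) (p : ℝ≥0∞) :
    MemLp (fun t => ((haarFun q m t : ℝ) : 𝕜)) p unitMeasure := by
  have hm : Measurable (fun t => ((haarFun q m t : ℝ) : 𝕜)) :=
    RCLike.measurable_ofReal.comp (haarFun_measurable q m)
  apply MemLp.of_bound hm.aestronglyMeasurable (2 * (2:ℝ) ^ ((Nat.log 2 m : ℝ) / q))
  apply Eventually.of_forall
  intro t
  rw [RCLike.norm_ofReal]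
  exact haarFun_bound q m t

/-- The `L_p`-normalised Haar system in `L_p[0,1]`, with real or complex scalars. -/
noncomputable def haar (𝕜 : Type) [RCLike 𝕜] (p : ℝ≥0∞) (m : ℕ) : Lp 𝕜 p unitMeasure :=
  (haarFun_memLp 𝕜 p.toReal m p).toLp _

section general

variable {𝕜 : Type} [RCLike 𝕜] {E : Type*} [NormedAddCommGroup E] [NormedSpace 𝕜 E]

/-- An `s`-norm. -/
structure IsSNorm (𝕜 : Type) [RCLike 𝕜] {E : Type*} [NormedAddCommGroup E] [NormedSpace 𝕜 E]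
    (s : ℝ) (N : E → ℝ) : Prop where
  nonneg : ∀ f, 0 ≤ N f
  eq_zero_iff : ∀ f, N f = 0 ↔ f = 0
  smul : ∀ (c : 𝕜) (f : E), N (c • f) = ‖c‖ * N f
  add_rpow_le : ∀ f g, N (f + g) ^ s ≤ N f ^ s + N g ^ s

/-- Equivalence to the usual norm. -/
def IsEquivalent {E : Type*} [NormedAddCommGroup E] (N : E → ℝ) : Prop :=
  ∃ c C : ℝ, 0 < c ∧ 0 < C ∧ ∀ f, c * ‖f‖ ≤ N f ∧ N f ≤ C * ‖f‖

/-- `f = ∑ a_j h_j`, the partial sums being taken in the given order. -/
def IsExpansion (h : ℕ → E) (f : E) (a : ℕ → 𝕜) : Prop :=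
  Tendsto (fun n => ∑ j ∈ Finset.range n, a j • h j) atTop (𝓝 f)

/-- `h` is a (Schauder) basis. -/
def IsBasisSeq (𝕜 : Type) [RCLike 𝕜] {E : Type*} [NormedAddCommGroup E] [NormedSpace 𝕜 E]
    (h : ℕ → E) : Prop :=
  ∀ f : E, ∃! a : ℕ → 𝕜, IsExpansion h f a

/-- `A` is a greedy set for the coefficient sequence `a`. -/
def IsGreedySet (a : ℕ → 𝕜) (A : Finset ℕ) : Prop :=
  ∀ i ∈ A, ∀ j, j ∉ A → ‖a j‖ ≤ ‖a i‖

/-- The sequence `h` is `1`-greedy with respect to `N`: every greedy sum of order `m` is a best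
`m`-term approximation. -/
def IsOneGreedy (𝕜 : Type) [RCLike 𝕜] {E : Type*} [NormedAddCommGroup E] [NormedSpace 𝕜 E]
    (h : ℕ → E) (N : E → ℝ) : Prop :=
  ∀ (f : E) (a : ℕ → 𝕜), IsExpansion h f a → ∀ A : Finset ℕ, IsGreedySet a A →
    ∀ (B : Finset ℕ) (b : ℕ → 𝕜), B.card ≤ A.card →
      N (f - ∑ j ∈ A, a j • h j) ≤ N (f - ∑ j ∈ B, b j • h j)

end general

end Pool.Agent.D0H66.HaarGreedy
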