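import Pool.Agent.D0H66.GrHaar
import Pool.Agent.D0H66.GrDefs

/-!
Existence of `s`-norms making the Haar system `1`-greedy.
-/

set_option autoImplicit false

namespace Pool.Agent.D0H66.HaarGreedy

open Filter Topology MeasureTheory H75R3
open scoped ENNReal

instance unitMeasure_prob : IsProbabilityMeasure unitMeasure := by
  constructor
  simp [unitMeasure]

theorem hg0 : MeasurePreserving (id : ℝ → ℝ) unitMeasure (volume.restrict (Set.Ico (0:ℝ) 1)) := by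
  have h : unitMeasure = volume.restrict (Set.Ico (0:ℝ) 1) :=
    (Measure.restrict_congr_set Ico_ae_eq_Icc).symm
  rw [h]
  exact MeasurePreserving.id _

theorem ae_mem_Ico : ∀ᵐ x ∂unitMeasure, x ∈ Set.Ico (0:ℝ) 1 := by
  have h : unitMeasure = volume.restrict (Set.Ico (0:ℝ) 1) :=
    (Measure.restrict_congr_set Ico_ae_eq_Icc).symm
  rw [h]
  exact ae_restrict_mem measurableSet_Ico

theorem nd_eq_iff {t : ℝ} (ht0 : 0 ≤ t) (ht1 : t < 1) (n j : ℕ) :
    nd n t = 2 ^ n + j ↔ (j:ℝ) / 2 ^ n ≤ t ∧ t < ((j:ℝ) + 1) / 2 ^ n := by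
  have hN : (0:ℝ) < 2 ^ n := by positivity
  unfold nd
  rw [Int.fract_eq_self.mpr ⟨ht0, ht1⟩, Nat.add_left_cancel_iff,
    Nat.floor_eq_iff (mul_nonneg hN.le ht0), div_le_iff₀ hN, lt_div_iff₀ hN, mul_comm t]

theorem haarFun_eq (P : ℝ) (m : ℕ) {t : ℝ} (ht : t ∈ Set.Ico (0:ℝ) 1) :
    ((haarFun P m t : ℝ) : ℂ) = (((2:ℝ) ^ ((Gr.lvl m : ℝ) / P) : ℝ) : ℂ) * hr m t := by
  unfold haarFun Gr.lvl
  by_cases hm : m = 0
  · subst hm
    rw [if_pos rfl, hr_zero, Set.indicator_of_mem ht]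
    simp
  · rw [if_neg hm]
    unfold haarNK
    set n := Nat.log 2 m with hn
    have h1 : 2 ^ n ≤ m := Nat.pow_log_le_self 2 hm
    have h2 : m < 2 ^ (n + 1) := Nat.lt_pow_succ_log_self (by norm_num) m
    obtain ⟨k, hk⟩ : ∃ k, m = 2 ^ n + k := ⟨m - 2 ^ n, by omega⟩
    have hk' : m - 2 ^ n = k := by omega
    have hmL : m ∈ L n := mem_L.mpr ⟨h1, h2⟩
    rw [hk', hr_L hmL, Complex.ofReal_mul]
    congr 1
    have hN : (0:ℝ) < 2 ^ n := by positivity
    have e1 : nd n t = m ↔ (k:ℝ) / 2 ^ n ≤ t ∧ t < ((k:ℝ) + 1) / 2 ^ n := by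
      have := nd_eq_iff ht.1 ht.2 n k
      rw [← hk] at this
      exact this
    have e2 : nd (n + 1) t = 2 * m ↔ (k:ℝ) / 2 ^ n ≤ t ∧ t < ((k:ℝ) + 1 / 2) / 2 ^ n := by
      have := nd_eq_iff ht.1 ht.2 (n + 1) (2 * k)
      have e3 : 2 ^ (n + 1) + 2 * k = 2 * m := by rw [hk]; ring
      rw [e3] at this
      rw [this]
      have e4 : (((2 * k : ℕ) : ℝ)) / 2 ^ (n + 1) = (k:ℝ) / 2 ^ n := by
        push_cast
        rw [pow_succ]
        field_simp
      have e5 : ((((2 * k : ℕ) : ℝ)) + 1) / 2 ^ (n + 1) = ((k:ℝ) + 1 / 2) / 2 ^ n := by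
        push_cast
        rw [pow_succ]
        field_simp
      rw [e4, e5]
    have hlt : ((k:ℝ) + 1 / 2) / 2 ^ n < ((k:ℝ) + 1) / 2 ^ n := by
      apply div_lt_div_of_pos_right _ hN
      linarith
    have hlt2 : (k:ℝ) / 2 ^ n < ((k:ℝ) + 1 / 2) / 2 ^ n := by
      apply div_lt_div_of_pos_right _ hN
      linarith
    by_cases c1 : (k:ℝ) / 2 ^ n ≤ t
    · by_cases c2 : t < ((k:ℝ) + 1 / 2) / 2 ^ n
      · rw [if_pos (e1.mpr ⟨c1, c2.trans hlt⟩), if_pos (e2.mpr ⟨c1, c2⟩),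
          Set.indicator_of_mem (Set.mem_Ico.mpr ⟨c1, c2⟩),
          Set.indicator_of_notMem (fun h => absurd (Set.mem_Ico.mp h).1 (not_le.mpr c2))]
        simp
      · by_cases c3 : t < ((k:ℝ) + 1) / 2 ^ n
        · rw [if_pos (e1.mpr ⟨c1, c3⟩), if_neg (fun h => c2 (e2.mp h).2),
            Set.indicator_of_notMem (fun h => c2 (Set.mem_Ico.mp h).2),
            Set.indicator_of_mem (Set.mem_Ico.mpr ⟨not_lt.mp c2, c3⟩)]
          simp
        · rw [if_neg (fun h => c3 (e1.mp h).2),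
            Set.indicator_of_notMem (fun h => c2 (Set.mem_Ico.mp h).2),
            Set.indicator_of_notMem (fun h => c3 (Set.mem_Ico.mp h).2)]
          simp
    · rw [if_neg (fun h => c1 (e1.mp h).1),
        Set.indicator_of_notMem (fun h => c1 (Set.mem_Ico.mp h).1),
        Set.indicator_of_notMem (fun h => c1 (hlt2.le.trans (Set.mem_Ico.mp h).1))]
      simp

variable {p : ℝ≥0∞} [hp1 : Fact (1 ≤ p)]

theorem haar_eq_hN (m : ℕ) : haar ℂ p m = Gr.hN (p := p) hg0 m := by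
  apply Lp.ext
  unfold haar Gr.hN
  filter_upwards [MemLp.coeFn_toLp (haarFun_memLp ℂ p.toReal m p),
    Lp.coeFn_smul ((((2:ℝ) ^ ((Gr.lvl m : ℝ) / p.toReal) : ℝ)) : ℂ) (eh unitMeasure p hg0.measurable m),
    eh_coe (μ := unitMeasure) (p := p) hg0.measurable m, ae_mem_Ico] with t h1 h2 h3 h4
  rw [h1, h2, Pi.smul_apply, h3, smul_eq_mul]
  exact haarFun_eq p.toReal m h4

theorem exists_GB0 (h1 : 1 < p) (hpt : p ≠ ∞) (h2 : p ≠ 2) :
    ∃ (K : ℝ) (φ : ℕ → Lp ℂ p unitMeasure →L[ℂ] ℂ), Gr.GB (haar ℂ p) φ K := by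
  have hd := eh_dense (p := p) (μ := unitMeasure) hg0 hpt id continuous_id (by
    filter_upwards [ae_mem_Ico] with x hx
    exact Int.fract_eq_self.mpr ⟨hx.1, hx.2⟩)
  obtain ⟨K, hK⟩ := Gr.exists_GB (p := p) (μ := unitMeasure) hg0 h1 hpt h2 hd
  refine ⟨K, Gr.phN hg0, ?_⟩
  have : haar ℂ p = Gr.hN (p := p) hg0 := funext haar_eq_hN
  rw [this]
  exact hK

section abs

variable {X : Type*} [NormedAddCommGroup X] [NormedSpace ℂ X]
  {e : ℕ → X} {φ : ℕ → X →L[ℂ] ℂ} {K : ℝ}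

theorem coef_of_expansion (H : Gr.GB e φ K) {f : X} {a : ℕ → ℂ} (ha : IsExpansion e f a) (m : ℕ) :
    φ m f = a m := by
  have h1 : Tendsto (fun n => φ m (∑ j ∈ Finset.range n, a j • e j)) atTop (𝓝 (φ m f)) :=
    ((φ m).continuous.tendsto f).comp ha
  have h2 : Tendsto (fun n => φ m (∑ j ∈ Finset.range n, a j • e j)) atTop (𝓝 (a m)) := by
    apply tendsto_const_nhds.congr'
    filter_upwards [eventually_gt_atTop m] with n hn
    rw [coord_fin e φ H.bi, if_pos (Finset.mem_range.mpr hn)]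
  exact tendsto_nhds_unique h1 h2

theorem expansion_self (H : Gr.GB e φ K) (f : X) : IsExpansion e f (fun m => φ m f) :=
  (H.expand f).tendsto_sum_nat

theorem basis_of_GB (H : Gr.GB e φ K) : IsBasisSeq ℂ e := by
  intro f
  refine ⟨fun m => φ m f, expansion_self H f, ?_⟩
  intro a ha
  funext m
  exact (coef_of_expansion H ha m).symm

theorem equiv_of_GB (H : Gr.GB e φ K) : IsEquivalent (Gr.NN e φ) := by
  have hK : 0 < K := lt_of_lt_of_le one_pos H.one_le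
  exact ⟨1, 2 * K ^ 2, one_pos, by positivity, fun f =>
    ⟨by rw [one_mul]; exact Gr.norm_le_NN H f, Gr.NN_le H f⟩⟩

theorem snorm_of_GB (H : Gr.GB e φ K) : IsSNorm ℂ (Gr.sexp K) (Gr.NN e φ) :=
  ⟨Gr.NN_nonneg H, Gr.NN_eq_zero_iff H, Gr.NN_smul H, Gr.NN_add_rpow H⟩

theorem greedy_of_GB (H : Gr.GB e φ K) : IsOneGreedy ℂ e (Gr.NN e φ) := by
  intro f a ha A hA B b hBA
  have hc : ∀ m, φ m f = a m := coef_of_expansion H ha
  have h := Gr.NN_greedy H f A B b hBA (by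
    intro i hi j hj
    rw [hc, hc]
    exact hA i hi j hj)
  rw [Finset.sum_congr rfl (fun j _ => by rw [hc j])] at h
  exact h

end abs

/-- An `s`-norm equivalent to the norm is continuous. -/
theorem continuous_of_snorm {𝕜 : Type} [RCLike 𝕜] {E : Type*} [NormedAddCommGroup E]
    [NormedSpace 𝕜 E] {s : ℝ} (hs : 0 < s) {N : E → ℝ} (h : IsSNorm 𝕜 s N) (he : IsEquivalent N) :
    Continuous N := by
  obtain ⟨c, C, hc, hC, hcC⟩ := he
  have hpow : Continuous (fun f => N f ^ s) := by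
    rw [continuous_iff_continuousAt]
    intro f
    rw [ContinuousAt, tendsto_iff_norm_sub_tendsto_zero]
    have hb : ∀ g, ‖N g ^ s - N f ^ s‖ ≤ (C * ‖g - f‖) ^ s := by
      intro g
      have h1 := h.add_rpow_le (g - f) f
      have h2 := h.add_rpow_le (f - g) g
      rw [sub_add_cancel] at h1 h2
      have h3 : N (g - f) ^ s ≤ (C * ‖g - f‖) ^ s :=
        Real.rpow_le_rpow (h.nonneg _) (hcC _).2 hs.le
      have h4 : N (f - g) ^ s ≤ (C * ‖g - f‖) ^ s := by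
        rw [norm_sub_rev]
        exact Real.rpow_le_rpow (h.nonneg _) (hcC _).2 hs.le
      rw [Real.norm_eq_abs, abs_le]
      constructor <;> linarith
    apply squeeze_zero (fun g => norm_nonneg _) hb
    have h5 : Tendsto (fun g => C * ‖g - f‖) (𝓝 f) (𝓝 (C * ‖f - f‖)) :=
      ((continuous_const.mul (continuous_id.sub continuous_const).norm).tendsto f)
    rw [sub_self, norm_zero, mul_zero] at h5
    have h6 := h5.rpow_const (p := s) (Or.inr hs.le)
    rw [Real.zero_rpow hs.ne'] at h6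
    exact h6
  have h7 : N = fun f => (N f ^ s) ^ (s⁻¹) := by
    funext f
    rw [← Real.rpow_mul (h.nonneg f), mul_inv_cancel₀ hs.ne', Real.rpow_one]
  rw [h7]
  exact hpow.rpow_const (fun f => Or.inr (inv_nonneg.mpr hs.le))

/-- complexification of a real function -/
noncomputable def cpl : Lp ℝ p unitMeasure →L[ℝ] Lp ℂ p unitMeasure :=
  Complex.ofRealCLM.compLpL p unitMeasure

/-- real part -/
noncomputable def rpt : Lp ℂ p unitMeasure →L[ℝ] Lp ℝ p unitMeasure :=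
  Complex.reCLM.compLpL p unitMeasure

theorem cpl_coe (f : Lp ℝ p unitMeasure) : ∀ᵐ x ∂unitMeasure, (cpl f) x = ((f x : ℝ) : ℂ) :=
  Complex.ofRealCLM.coeFn_compLpL f

theorem rpt_coe (f : Lp ℂ p unitMeasure) : ∀ᵐ x ∂unitMeasure, (rpt f) x = (f x).re :=
  Complex.reCLM.coeFn_compLpL f

theorem cpl_norm (f : Lp ℝ p unitMeasure) : ‖cpl f‖ = ‖f‖ := by
  rw [Lp.norm_def, Lp.norm_def]
  congr 1
  apply eLpNorm_congr_norm_ae
  filter_upwards [cpl_coe f] with x hx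
  rw [hx, Complex.norm_real]

theorem cpl_haar (m : ℕ) : cpl (haar ℝ p m) = haar ℂ p m := by
  apply Lp.ext
  unfold haar
  filter_upwards [cpl_coe (haar ℝ p m), MemLp.coeFn_toLp (haarFun_memLp ℝ p.toReal m p),
    MemLp.coeFn_toLp (haarFun_memLp ℂ p.toReal m p)] with x h1 h2 h3
  unfold haar at h1
  rw [h1, h2, h3]
  rfl

theorem cpl_smul (c : ℝ) (f : Lp ℝ p unitMeasure) : cpl (c • f) = ((c : ℝ) : ℂ) • cpl f := by
  rw [map_smul]
  apply Lp.ext
  filter_upwards [Lp.coeFn_smul c (cpl f), Lp.coeFn_smul ((c : ℝ) : ℂ) (cpl f)] with x h1 h2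
  rw [h1, h2, Pi.smul_apply, Pi.smul_apply, Complex.real_smul, smul_eq_mul]

theorem cpl_sum (s : Finset ℕ) (a : ℕ → ℝ) :
    cpl (∑ j ∈ s, a j • haar ℝ p j) = ∑ j ∈ s, ((a j : ℝ) : ℂ) • haar ℂ p j := by
  rw [map_sum]
  refine Finset.sum_congr rfl fun j _ => ?_
  rw [cpl_smul, cpl_haar]

theorem rpt_smul_haar (c : ℂ) (m : ℕ) : rpt (c • haar ℂ p m) = c.re • haar ℝ p m := by
  apply Lp.ext
  filter_upwards [rpt_coe (c • haar ℂ p m), Lp.coeFn_smul c (haar ℂ p m),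
    Lp.coeFn_smul c.re (haar ℝ p m), MemLp.coeFn_toLp (haarFun_memLp ℝ p.toReal m p),
    MemLp.coeFn_toLp (haarFun_memLp ℂ p.toReal m p)] with x h1 h2 h3 h4 h5
  rw [h1, h2, h3, Pi.smul_apply, Pi.smul_apply]
  have e1 : (haar ℂ p m : ℝ → ℂ) x = ((haarFun p.toReal m x : ℝ) : ℂ) := h5
  have e2 : (haar ℝ p m : ℝ → ℝ) x = haarFun p.toReal m x := h4
  rw [e1, e2, smul_eq_mul, smul_eq_mul, Complex.re_mul_ofReal]

theorem rpt_cpl (f : Lp ℝ p unitMeasure) : rpt (cpl f) = f := by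
  apply Lp.ext
  filter_upwards [rpt_coe (cpl f), cpl_coe f] with x h1 h2
  rw [h1, h2, Complex.ofReal_re]

theorem cpl_expansion {f : Lp ℝ p unitMeasure} {a : ℕ → ℝ} (ha : IsExpansion (haar ℝ p) f a) :
    IsExpansion (haar ℂ p) (cpl f) (fun j => ((a j : ℝ) : ℂ)) := by
  have h := ((cpl (p := p)).continuous.tendsto f).comp ha
  refine h.congr fun n => ?_
  rw [Function.comp_apply, cpl_sum]

theorem basis_real {K : ℝ} {φ : ℕ → Lp ℂ p unitMeasure →L[ℂ] ℂ} (H : Gr.GB (haar ℂ p) φ K) :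
    IsBasisSeq ℝ (haar ℝ p) := by
  intro f
  refine ⟨fun m => (φ m (cpl f)).re, ?_, ?_⟩
  · have h := ((rpt (p := p)).continuous.tendsto (cpl f)).comp (expansion_self H (cpl f))
    rw [rpt_cpl] at h
    refine h.congr fun n => ?_
    rw [Function.comp_apply, map_sum]
    refine Finset.sum_congr rfl fun j _ => ?_
    rw [rpt_smul_haar]
  · intro a ha
    funext m
    have := coef_of_expansion H (cpl_expansion ha) m
    rw [this, Complex.ofReal_re]

theorem snorm_real {s : ℝ} {N : Lp ℂ p unitMeasure → ℝ} (h : IsSNorm ℂ s N) :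
    IsSNorm ℝ s (fun f : Lp ℝ p unitMeasure => N (cpl f)) := by
  refine ⟨fun f => h.nonneg _, fun f => ?_, fun c f => ?_, fun f g => ?_⟩
  · rw [h.eq_zero_iff]
    constructor
    · intro h0
      rw [← norm_eq_zero, ← cpl_norm, h0, norm_zero]
    · rintro rfl
      exact map_zero _
  · rw [cpl_smul, h.smul, Complex.norm_real]
  · rw [map_add]
    exact h.add_rpow_le _ _

theorem equiv_real {N : Lp ℂ p unitMeasure → ℝ} (h : IsEquivalent N) :
    IsEquivalent (fun f : Lp ℝ p unitMeasure => N (cpl f)) := by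
  obtain ⟨c, C, hc, hC, hcC⟩ := h
  refine ⟨c, C, hc, hC, fun f => ?_⟩
  rw [← cpl_norm f]
  exact hcC _

theorem greedy_real {N : Lp ℂ p unitMeasure → ℝ} (h : IsOneGreedy ℂ (haar ℂ p) N) :
    IsOneGreedy ℝ (haar ℝ p) (fun f : Lp ℝ p unitMeasure => N (cpl f)) := by
  intro f a ha A hA B b hBA
  have h1 := h (cpl f) (fun j => ((a j : ℝ) : ℂ)) (cpl_expansion ha) A (by
    intro i hi j hj
    rw [Complex.norm_real, Complex.norm_real]
    exact hA i hi j hj) B (fun j => ((b j : ℝ) : ℂ)) hBA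
  simp only
  rw [map_sub, map_sub, cpl_sum, cpl_sum]
  exact h1

end Pool.Agent.D0H66.HaarGreedy
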