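import Pool.Agent.H75R3.HaarBasis
import Pool.Agent.D0H66.GrAbs

/-!
The `L_p`-normalised Haar system is a greedy basis: democracy and the `GB` structure.
-/

set_option autoImplicit false
set_option linter.unusedSectionVars false

namespace Pool.Agent.D0H66.Gr

open Finset MeasureTheory Filter Topology H75R3
open scoped ENNReal

/-- level of a Haar index -/
def lvl (m : ℕ) : ℕ := Nat.log 2 m

theorem norm_hr_cases (m : ℕ) (t : ℝ) : ‖hr m t‖ = 0 ∨ ‖hr m t‖ = 1 := by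
  unfold hr
  split_ifs <;> simp

theorem hr_ne_zero {m : ℕ} (hm : m ≠ 0) {t : ℝ} (h : ‖hr m t‖ ≠ 0) : nd (lvl m) t = m := by
  by_contra hc
  apply h
  unfold hr
  unfold lvl at hc
  rw [if_neg hm, if_neg hc, norm_zero]

/-- the pointwise inequality -/
theorem pt_ineq (P : ℝ) (hP : 0 < P) : ∃ C : ℝ, 0 < C ∧ ∀ (E : Finset ℕ) (x : ℝ),
    (∑ j ∈ E, (2:ℝ) ^ ((lvl j : ℝ) / P) * ‖hr j x‖) ^ P ≤
      C * ∑ j ∈ E, (2:ℝ) ^ (lvl j) * ‖hr j x‖ := by
  classical
  set ρ : ℝ := (2:ℝ) ^ (1 / P) with hρ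
  have hρ1 : 1 < ρ := Real.one_lt_rpow (by norm_num) (by positivity)
  have hρn : ∀ n : ℕ, (2:ℝ) ^ ((n : ℝ) / P) = ρ ^ n := by
    intro n
    rw [hρ, ← Real.rpow_natCast, ← Real.rpow_mul (by norm_num)]
    congr 1
    ring
  set κ : ℝ := 1 + ρ / (ρ - 1) with hκ
  have hρ0 : 0 < ρ - 1 := by linarith
  have hκ0 : 0 < κ := by positivity
  refine ⟨κ ^ P, by positivity, fun E x => ?_⟩
  set A : Finset ℕ := E.filter (fun j => ‖hr j x‖ ≠ 0) with hA
  have h1 : ∑ j ∈ E, (2:ℝ) ^ ((lvl j : ℝ) / P) * ‖hr j x‖ = ∑ j ∈ A, ρ ^ (lvl j) := by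
    rw [hA, Finset.sum_filter]
    refine Finset.sum_congr rfl fun j _ => ?_
    rw [hρn]
    rcases norm_hr_cases j x with h | h
    · simp [h]
    · simp [h]
  have h2 : ∑ j ∈ E, (2:ℝ) ^ (lvl j) * ‖hr j x‖ = ∑ j ∈ A, (2:ℝ) ^ (lvl j) := by
    rw [hA, Finset.sum_filter]
    refine Finset.sum_congr rfl fun j _ => ?_
    rcases norm_hr_cases j x with h | h
    · simp [h]
    · simp [h]
  rw [h1, h2]
  rcases Finset.eq_empty_or_nonempty A with h0 | h0
  · rw [h0, Finset.sum_empty, Finset.sum_empty, Real.zero_rpow hP.ne', mul_zero]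
  · obtain ⟨j₀, hj₀, hmax⟩ := Finset.exists_max_image A lvl h0
    set M := lvl j₀ with hM
    have h3 : ∑ j ∈ A.erase 0, ρ ^ (lvl j) ≤ ∑ n ∈ range (M + 1), ρ ^ n := by
      rw [← Finset.sum_image (f := fun n => ρ ^ n) (s := A.erase 0) (g := lvl)]
      · apply Finset.sum_le_sum_of_subset_of_nonneg
        · intro n hn
          obtain ⟨j, hj, rfl⟩ := Finset.mem_image.mp hn
          rw [Finset.mem_range]
          have := hmax j (Finset.mem_of_mem_erase hj)
          omega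
        · intro n _ _
          positivity
      · intro i hi j hj hij
        have hi' := Finset.mem_coe.mp hi
        have hj' := Finset.mem_coe.mp hj
        obtain ⟨hi0, hiA⟩ := Finset.mem_erase.mp hi'
        obtain ⟨hj0, hjA⟩ := Finset.mem_erase.mp hj'
        have e1 := hr_ne_zero hi0 (Finset.mem_filter.mp hiA).2
        have e2 := hr_ne_zero hj0 (Finset.mem_filter.mp hjA).2
        rw [← e1, ← e2, hij]
    have h4 : ∑ j ∈ A, ρ ^ (lvl j) ≤ 1 + ∑ n ∈ range (M + 1), ρ ^ n := by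
      by_cases hz : 0 ∈ A
      · rw [← Finset.add_sum_erase A _ hz]
        have : lvl 0 = 0 := by simp [lvl]
        rw [this, pow_zero]
        linarith
      · rw [Finset.erase_eq_of_notMem hz] at h3
        linarith
    have h5 : ∑ n ∈ range (M + 1), ρ ^ n ≤ ρ / (ρ - 1) * ρ ^ M := by
      rw [geom_sum_eq hρ1.ne', div_mul_eq_mul_div]
      apply div_le_div_of_nonneg_right _ hρ0.le
      rw [pow_succ]
      linarith
    have h6 : (1:ℝ) ≤ ρ ^ M := one_le_pow₀ hρ1.le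
    have h7 : ∑ j ∈ A, ρ ^ (lvl j) ≤ κ * ρ ^ M := by
      rw [hκ]
      linarith
    have h8 : 0 ≤ ∑ j ∈ A, ρ ^ (lvl j) := Finset.sum_nonneg fun j _ => by positivity
    have h9 : (ρ ^ M) ^ P = 2 ^ M := by
      rw [← hρn M, ← Real.rpow_mul (by norm_num), div_mul_cancel₀ _ hP.ne', Real.rpow_natCast]
    calc (∑ j ∈ A, ρ ^ (lvl j)) ^ P ≤ (κ * ρ ^ M) ^ P := Real.rpow_le_rpow h8 h7 hP.le
      _ = κ ^ P * 2 ^ M := by rw [Real.mul_rpow hκ0.le (by positivity), h9]
      _ ≤ κ ^ P * ∑ j ∈ A, (2:ℝ) ^ (lvl j) := by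
        apply mul_le_mul_of_nonneg_left _ (by positivity)
        exact Finset.single_le_sum (f := fun j => (2:ℝ) ^ (lvl j)) (fun i _ => by positivity) hj₀

section space

variable {X : Type*} [MeasurableSpace X] {μ : Measure X} [IsProbabilityMeasure μ]
  {g : X → ℝ}

theorem integral_norm_hr (hg : MeasurePreserving g μ (volume.restrict (Set.Ico (0:ℝ) 1))) (m : ℕ) :
    ∫ x, ‖hr m (g x)‖ ∂μ = ((2:ℝ) ^ (lvl m))⁻¹ := by
  by_cases hm : m = 0
  · subst hm
    simp [hr_zero, lvl]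
  · have hL : m ∈ L (lvl m) := by
      rw [mem_L]
      exact ⟨Nat.pow_log_le_self 2 hm, Nat.lt_pow_succ_log_self (by norm_num) m⟩
    rw [← meas_nd hg (lvl m) m hL]
    have h1 : (fun x => ‖hr m (g x)‖) = Set.indicator {x | nd (lvl m) (g x) = m} (fun _ => (1:ℝ)) := by
      funext x
      rw [hr_L hL]
      by_cases h : nd (lvl m) (g x) = m
      · rw [if_pos h, Set.indicator_of_mem (by exact h)]
        split_ifs <;> simp
      · rw [if_neg h, Set.indicator_of_notMem (by exact h), norm_zero]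
    have hms : MeasurableSet {x | nd (lvl m) (g x) = m} := nd_g_meas hg _ (measurableSet_singleton m)
    rw [h1, integral_indicator_const _ hms, smul_eq_mul, mul_one]

/-- upper democracy estimate, at the level of functions -/
theorem int_upper (hg : MeasurePreserving g μ (volume.restrict (Set.Ico (0:ℝ) 1))) (P : ℝ)
    (hP : 0 < P) : ∃ C : ℝ, 0 < C ∧ ∀ (E : Finset ℕ) (b : ℕ → ℂ) (t : ℝ), 0 ≤ t →
    (∀ j ∈ E, ‖b j‖ ≤ t) →
    ∫ x, ‖∑ j ∈ E, (b j * ((2:ℝ) ^ ((lvl j : ℝ) / P) : ℝ)) * hr j (g x)‖ ^ P ∂μ ≤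
      C * t ^ P * E.card := by
  obtain ⟨C, hC, h⟩ := pt_ineq P hP
  refine ⟨C, hC, fun E b t ht hb => ?_⟩
  have hint : ∀ j, Integrable (fun x => (2:ℝ) ^ (lvl j) * ‖hr j (g x)‖) μ := by
    intro j
    apply Integrable.const_mul
    apply Integrable.norm
    apply Integrable.of_bound ((hr_meas j).comp hg.measurable).aestronglyMeasurable 1
    exact Eventually.of_forall fun x => norm_hr_le j (g x)
  have hR : ∫ x, C * t ^ P * ∑ j ∈ E, (2:ℝ) ^ (lvl j) * ‖hr j (g x)‖ ∂μ = C * t ^ P * E.card := by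
    rw [integral_const_mul, integral_finsetSum _ (fun j _ => hint j)]
    congr 1
    have : ∀ j ∈ E, ∫ x, (2:ℝ) ^ (lvl j) * ‖hr j (g x)‖ ∂μ = 1 := by
      intro j _
      rw [integral_const_mul, integral_norm_hr hg, mul_inv_cancel₀ (by positivity)]
    rw [Finset.sum_congr rfl this]
    simp
  rw [← hR]
  apply integral_mono_of_nonneg
  · exact Eventually.of_forall fun x => by positivity
  · apply Integrable.const_mul
    exact integrable_finsetSum _ (fun j _ => hint j)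
  · apply Eventually.of_forall
    intro x
    show ‖∑ j ∈ E, (b j * ((2:ℝ) ^ ((lvl j : ℝ) / P) : ℝ)) * hr j (g x)‖ ^ P ≤
      C * t ^ P * ∑ j ∈ E, (2:ℝ) ^ (lvl j) * ‖hr j (g x)‖
    have h1 : ‖∑ j ∈ E, (b j * ((2:ℝ) ^ ((lvl j : ℝ) / P) : ℝ)) * hr j (g x)‖ ≤
        t * ∑ j ∈ E, (2:ℝ) ^ ((lvl j : ℝ) / P) * ‖hr j (g x)‖ := by
      refine (norm_sum_le _ _).trans ?_
      rw [Finset.mul_sum]
      apply Finset.sum_le_sum
      intro j hj
      rw [norm_mul, norm_mul, Complex.norm_real, Real.norm_of_nonneg (by positivity), mul_assoc]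
      exact mul_le_mul_of_nonneg_right (hb j hj) (by positivity)
    have h2 : 0 ≤ ∑ j ∈ E, (2:ℝ) ^ ((lvl j : ℝ) / P) * ‖hr j (g x)‖ :=
      Finset.sum_nonneg fun j _ => by positivity
    calc ‖∑ j ∈ E, (b j * ((2:ℝ) ^ ((lvl j : ℝ) / P) : ℝ)) * hr j (g x)‖ ^ P ≤
        (t * ∑ j ∈ E, (2:ℝ) ^ ((lvl j : ℝ) / P) * ‖hr j (g x)‖) ^ P :=
          Real.rpow_le_rpow (norm_nonneg _) h1 hP.le
      _ = t ^ P * (∑ j ∈ E, (2:ℝ) ^ ((lvl j : ℝ) / P) * ‖hr j (g x)‖) ^ P :=
          Real.mul_rpow ht h2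
      _ ≤ t ^ P * (C * ∑ j ∈ E, (2:ℝ) ^ (lvl j) * ‖hr j (g x)‖) :=
          mul_le_mul_of_nonneg_left (h E (g x)) (by positivity)
      _ = C * t ^ P * ∑ j ∈ E, (2:ℝ) ^ (lvl j) * ‖hr j (g x)‖ := by ring

variable {p : ℝ≥0∞} [hp1 : Fact (1 ≤ p)]

theorem wt_eq (m : ℕ) : wt m = 2 ^ (lvl m) := by
  unfold wt lvl
  split_ifs with h
  · subst h; simp
  · rfl

/-- upper democracy in `L^p` -/
theorem norm_upper (hg : MeasurePreserving g μ (volume.restrict (Set.Ico (0:ℝ) 1)))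
    (hpt : p ≠ ∞) : ∃ C : ℝ, 0 < C ∧ ∀ (E : Finset ℕ) (b : ℕ → ℂ) (t : ℝ), 0 ≤ t →
    (∀ j ∈ E, ‖b j‖ ≤ t) →
    ‖∑ j ∈ E, (b j * ((2:ℝ) ^ ((lvl j : ℝ) / p.toReal) : ℝ)) • eh μ p hg.measurable j‖ ≤
      C * t * (E.card : ℝ) ^ (1 / p.toReal) := by
  have hP : 0 < p.toReal := by
    apply ENNReal.toReal_pos _ hpt
    intro h0
    have := hp1.out
    rw [h0] at this
    simp at this
  obtain ⟨C, hC, h⟩ := int_upper hg p.toReal hP
  refine ⟨C ^ (1 / p.toReal), by positivity, fun E b t ht hb => ?_⟩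
  rw [norm_Lp_eq hpt _ _ (sum_eh_coe (μ := μ) (p := p) hg.measurable E
    (fun j => b j * ((2:ℝ) ^ ((lvl j : ℝ) / p.toReal) : ℝ)))]
  have h1 := h E b t ht hb
  have h2 : 0 ≤ ∫ x, ‖∑ j ∈ E, (b j * ((2:ℝ) ^ ((lvl j : ℝ) / p.toReal) : ℝ)) * hr j (g x)‖ ^
      p.toReal ∂μ := integral_nonneg fun x => by positivity
  refine (Real.rpow_le_rpow h2 h1 (by positivity)).trans (le_of_eq ?_)
  rw [Real.mul_rpow (by positivity) (by positivity), Real.mul_rpow (by positivity) (by positivity),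
    ← Real.rpow_mul ht, mul_one_div_cancel hP.ne', Real.rpow_one]

/-- lower democracy in `L^p` -/
theorem norm_lower (hg : MeasurePreserving g μ (volume.restrict (Set.Ico (0:ℝ) 1)))
    (h1p : 1 < p) (hpt : p ≠ ∞) : ∃ c : ℝ, 0 < c ∧ ∀ (G : Finset ℕ),
    c * (G.card : ℝ) ^ (1 / p.toReal) ≤
      ‖∑ j ∈ G, (((2:ℝ) ^ ((lvl j : ℝ) / p.toReal) : ℝ) : ℂ) • eh μ p hg.measurable j‖ := by
  have hP1 : 1 < p.toReal := P_gt p h1p hpt
  set P := p.toReal with hP
  have hP0 : 0 < P := by linarith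
  set Q := P.conjExponent with hQ
  have hPQ : P.HolderConjugate Q := Real.HolderConjugate.conjExponent hP1
  have hQ0 : 0 < Q := hPQ.symm.pos
  obtain ⟨C, hC, h⟩ := int_upper hg Q hQ0
  refine ⟨(C ^ (1 / Q))⁻¹, by positivity, fun G => ?_⟩
  rcases Nat.eq_zero_or_pos G.card with h0 | h0
  · rw [h0, Nat.cast_zero, Real.zero_rpow (by positivity), mul_zero]
    exact norm_nonneg _
  have hN : (0:ℝ) < G.card := by exact_mod_cast h0
  set f : Lp ℂ p μ := ∑ j ∈ G, (((2:ℝ) ^ ((lvl j : ℝ) / P) : ℝ) : ℂ) • eh μ p hg.measurable j with hf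
  set w : X → ℂ := fun x => ∑ j ∈ G, ((1:ℂ) * ((2:ℝ) ^ ((lvl j : ℝ) / Q) : ℝ)) * hr j (g x) with hw
  have hwm : Measurable w := by
    apply Finset.measurable_sum
    intro j _
    exact ((hr_meas j).comp hg.measurable).const_mul _
  -- the pairing
  have hpair : ∫ x, f x * w x ∂μ = (G.card : ℂ) := by
    have e1 : ∀ j, Integrable (fun x => f x * hr j (g x)) μ := fun j =>
      integrable_mul_bdd f _ ((hr_meas j).comp hg.measurable).aestronglyMeasurable
        (fun x => norm_hr_le j (g x))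
    have e2 : (fun x => f x * w x) = fun x => ∑ j ∈ G, (((2:ℝ) ^ ((lvl j : ℝ) / Q) : ℝ) : ℂ) *
        (f x * hr j (g x)) := by
      funext x
      rw [hw]
      simp only
      rw [Finset.mul_sum]
      refine Finset.sum_congr rfl fun j _ => ?_
      ring
    rw [e2, integral_finsetSum _ (fun j _ => (e1 j).const_mul _)]
    have e3 : ∀ j ∈ G, ∫ x, (((2:ℝ) ^ ((lvl j : ℝ) / Q) : ℝ) : ℂ) * (f x * hr j (g x)) ∂μ = 1 := by
      intro j hj
      rw [integral_const_mul]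
      have e4 : ph μ p hg.measurable j f = (((2:ℝ) ^ ((lvl j : ℝ) / P) : ℝ) : ℂ) := by
        rw [hf, coord_fin _ _ (ph_eh hg), if_pos hj]
      rw [ph_apply, wt_eq] at e4
      have e5 : (2:ℝ) ^ ((lvl j : ℝ) / Q) * (2:ℝ) ^ ((lvl j : ℝ) / P) = (2:ℝ) ^ (lvl j) := by
        rw [← Real.rpow_add (by norm_num), ← Real.rpow_natCast]
        congr 1
        have e6 : P⁻¹ + Q⁻¹ = 1 := hPQ.inv_add_inv_eq_one
        rw [div_eq_mul_inv, div_eq_mul_inv, ← mul_add, add_comm, e6, mul_one]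
      have e7 : (((2:ℝ) ^ (lvl j) : ℝ) : ℂ) ≠ 0 := by
        rw [Complex.ofReal_ne_zero]; positivity
      apply mul_left_cancel₀ e7
      rw [mul_one]
      calc (((2:ℝ) ^ (lvl j) : ℝ) : ℂ) * ((((2:ℝ) ^ ((lvl j : ℝ) / Q) : ℝ) : ℂ) *
            ∫ x, f x * hr j (g x) ∂μ) =
          (((2:ℝ) ^ ((lvl j : ℝ) / Q) : ℝ) : ℂ) * ((((2:ℝ) ^ (lvl j) : ℝ) : ℂ) *
            ∫ x, f x * hr j (g x) ∂μ) := by ring
        _ = (((2:ℝ) ^ ((lvl j : ℝ) / Q) : ℝ) : ℂ) * (((2:ℝ) ^ ((lvl j : ℝ) / P) : ℝ) : ℂ) := by rw [e4]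
        _ = (((2:ℝ) ^ (lvl j) : ℝ) : ℂ) := by rw [← Complex.ofReal_mul, e5]
    rw [Finset.sum_congr rfl e3]
    simp
  -- Hoelder
  have hfm : MemLp (fun x => f x) (ENNReal.ofReal P) μ := by
    rw [hP, ENNReal.ofReal_toReal hpt]
    exact Lp.memLp f
  have hwb : MemLp w (ENNReal.ofReal Q) μ := by
    apply MemLp.of_bound hwm.aestronglyMeasurable (∑ j ∈ G, (2:ℝ) ^ ((lvl j : ℝ) / Q))
    apply Eventually.of_forall
    intro x
    refine (norm_sum_le _ _).trans ?_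
    apply Finset.sum_le_sum
    intro j _
    rw [norm_mul, norm_mul, norm_one, one_mul, Complex.norm_real, Real.norm_of_nonneg (by positivity)]
    exact mul_le_of_le_one_right (by positivity) (norm_hr_le j (g x))
  have hH := integral_mul_norm_le_Lp_mul_Lq hPQ hfm hwb
  have h1 : ‖f‖ = (∫ x, ‖f x‖ ^ P ∂μ) ^ (1 / P) := norm_Lp_eq hpt f _ (Eventually.of_forall fun x => rfl)
  have h2 : (∫ x, ‖w x‖ ^ Q ∂μ) ^ (1 / Q) ≤ C ^ (1 / Q) * (G.card : ℝ) ^ (1 / Q) := by
    have h3 := h G (fun _ => 1) 1 zero_le_one (fun j _ => by simp)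
    rw [Real.one_rpow, mul_one] at h3
    rw [← Real.mul_rpow hC.le hN.le]
    apply Real.rpow_le_rpow (integral_nonneg fun x => by positivity) h3 (by positivity)
  have h4 : (G.card : ℝ) ≤ ‖f‖ * (C ^ (1 / Q) * (G.card : ℝ) ^ (1 / Q)) := by
    calc (G.card : ℝ) = ‖∫ x, f x * w x ∂μ‖ := by rw [hpair]; simp
      _ ≤ ∫ x, ‖f x * w x‖ ∂μ := norm_integral_le_integral_norm _
      _ = ∫ x, ‖f x‖ * ‖w x‖ ∂μ := by simp only [norm_mul]
      _ ≤ ‖f‖ * (∫ x, ‖w x‖ ^ Q ∂μ) ^ (1 / Q) := by rw [h1]; exact hH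
      _ ≤ ‖f‖ * (C ^ (1 / Q) * (G.card : ℝ) ^ (1 / Q)) :=
        mul_le_mul_of_nonneg_left h2 (norm_nonneg _)
  have h5 : (G.card : ℝ) ^ (1 / P) * (G.card : ℝ) ^ (1 / Q) = G.card := by
    rw [← Real.rpow_add hN, one_div, one_div, hPQ.inv_add_inv_eq_one, Real.rpow_one]
  have h6 : 0 < (G.card : ℝ) ^ (1 / Q) := by positivity
  rw [inv_mul_le_iff₀ (by positivity)]
  have h7 : (G.card : ℝ) ^ (1 / P) * (G.card : ℝ) ^ (1 / Q) ≤
      (C ^ (1 / Q) * ‖f‖) * (G.card : ℝ) ^ (1 / Q) := by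
    rw [h5]
    linarith
  exact le_of_mul_le_mul_right h7 h6

/-- normalised Haar elements -/
noncomputable def hN (hg : MeasurePreserving g μ (volume.restrict (Set.Ico (0:ℝ) 1))) (m : ℕ) :
    Lp ℂ p μ :=
  (((2:ℝ) ^ ((lvl m : ℝ) / p.toReal) : ℝ) : ℂ) • eh μ p hg.measurable m

/-- coordinate functionals of the normalised Haar elements -/
noncomputable def phN (hg : MeasurePreserving g μ (volume.restrict (Set.Ico (0:ℝ) 1))) (m : ℕ) :
    Lp ℂ p μ →L[ℂ] ℂ :=
  ((((2:ℝ) ^ ((lvl m : ℝ) / p.toReal))⁻¹ : ℝ) : ℂ) • ph μ p hg.measurable m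

theorem exists_GB (hg : MeasurePreserving g μ (volume.restrict (Set.Ico (0:ℝ) 1)))
    (h1p : 1 < p) (hpt : p ≠ ∞) (h2 : p ≠ 2)
    (hdense : Dense (Submodule.span ℂ (Set.range (eh μ p hg.measurable)) : Set (Lp ℂ p μ))) :
    ∃ K : ℝ, GB (X := Lp ℂ p μ) (hN hg) (phN hg) K := by
  obtain ⟨C, HC⟩ := exists_HB (μ := μ) hg h1p hpt h2 hdense
  obtain ⟨U, hU0, hU⟩ := norm_upper (μ := μ) (p := p) hg hpt
  obtain ⟨c, hc0, hc⟩ := norm_lower (μ := μ) (p := p) hg h1p hpt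
  have hC0 := HC.pos
  have hpos : ∀ m : ℕ, (0:ℝ) < (2:ℝ) ^ ((lvl m : ℝ) / p.toReal) := fun m => by positivity
  have hne : ∀ m : ℕ, ((((2:ℝ) ^ ((lvl m : ℝ) / p.toReal) : ℝ)) : ℂ) ≠ 0 := fun m => by
    rw [Complex.ofReal_ne_zero]; exact (hpos m).ne'
  have hcomb : ∀ m (x : Lp ℂ p μ), phN hg m x • hN hg m = ph μ p hg.measurable m x • eh μ p hg.measurable m := by
    intro m x
    unfold phN hN
    rw [_root_.smul_apply, smul_eq_mul, smul_smul]
    congr 1
    push_cast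
    field_simp [hne m]
  have hmult : ∀ (F : Finset ℕ) (b c : ℕ → ℂ), (∀ j ∈ F, ‖b j‖ ≤ ‖c j‖) →
      ‖∑ j ∈ F, b j • (hN hg j : Lp ℂ p μ)‖ ≤ C * ‖∑ j ∈ F, c j • (hN hg j : Lp ℂ p μ)‖ := by
    intro F b c hbc
    have h3 := HC.mult F (fun j => c j * ((2:ℝ) ^ ((lvl j : ℝ) / p.toReal) : ℝ))
      (fun j => if c j = 0 then 0 else b j / c j) 1 zero_le_one (by
        intro j hj
        split_ifs with h
        · simp
        · rw [norm_div]
          exact div_le_one_of_le₀ (hbc j hj) (norm_nonneg _))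
    rw [mul_one] at h3
    have e1 : ∑ j ∈ F, b j • (hN hg j : Lp ℂ p μ) =
        ∑ m ∈ F, (c m * ((2:ℝ) ^ ((lvl m : ℝ) / p.toReal) : ℝ)) •
          ((if c m = 0 then 0 else b m / c m) • eh μ p hg.measurable m) := by
      refine Finset.sum_congr rfl fun m hm => ?_
      unfold hN
      rw [smul_smul, smul_smul]
      congr 1
      by_cases h : c m = 0
      · have hb : b m = 0 := by
          have := hbc m hm
          rw [h, norm_zero] at this
          exact norm_le_zero_iff.mp this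
        rw [h, hb]
        simp
      · rw [if_neg h]
        field_simp
    have e2 : ∑ j ∈ F, c j • (hN hg j : Lp ℂ p μ) =
        ∑ m ∈ F, (c m * ((2:ℝ) ^ ((lvl m : ℝ) / p.toReal) : ℝ)) • eh μ p hg.measurable m := by
      refine Finset.sum_congr rfl fun m hm => ?_
      unfold hN
      rw [smul_smul]
    rw [e1, e2]
    exact h3
  refine ⟨1 + C + C * U / c, ?_, ?_, ?_, ?_, ?_, ?_⟩
  · have : 0 ≤ C * U / c := by positivity
    linarith
  · intro m k
    unfold phN hN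
    rw [_root_.smul_apply, map_smul, ph_eh hg, smul_eq_mul, smul_eq_mul]
    split_ifs with h
    · subst h
      rw [mul_one]
      push_cast
      rw [inv_mul_cancel₀]
      have := hne m
      push_cast at this
      exact this
    · rw [mul_zero, mul_zero]
  · intro x
    have h3 := HC.expand x
    have h4 : (fun m => phN hg m x • (hN hg m : Lp ℂ p μ)) =
        fun m => ph μ p hg.measurable m x • eh μ p hg.measurable m := funext fun m => hcomb m x
    rw [h4]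
    exact h3
  · intro F b c' hbc
    refine (hmult F b c' hbc).trans (mul_le_mul_of_nonneg_right ?_ (norm_nonneg _))
    have : 0 ≤ C * U / c := by positivity
    linarith
  · intro F x
    rw [Finset.sum_congr rfl (fun m _ => hcomb m x)]
    refine (HC.proj F x).trans (mul_le_mul_of_nonneg_right ?_ (norm_nonneg _))
    have : 0 ≤ C * U / c := by positivity
    linarith
  · intro E G b c' t hEG hb hc'
    rcases lt_or_ge t 0 with ht | ht
    · have hE : E = ∅ := by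
        rw [Finset.eq_empty_iff_forall_notMem]
        intro j hj
        have := hb j hj
        linarith [norm_nonneg (b j)]
      rw [hE, Finset.sum_empty, norm_zero]
      positivity
    · have h3 := hU E b t ht hb
      have h4 := hc G
      have h5 : ∑ j ∈ E, b j • (hN hg j : Lp ℂ p μ) =
          ∑ j ∈ E, (b j * ((2:ℝ) ^ ((lvl j : ℝ) / p.toReal) : ℝ)) • eh μ p hg.measurable j := by
        refine Finset.sum_congr rfl fun m hm => ?_
        unfold hN
        rw [smul_smul]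
      have h6 : ∑ j ∈ G, ((t : ℝ) : ℂ) • (hN hg j : Lp ℂ p μ) = ((t : ℝ) : ℂ) •
          ∑ j ∈ G, (((2:ℝ) ^ ((lvl j : ℝ) / p.toReal) : ℝ) : ℂ) • eh μ p hg.measurable j := by
        rw [Finset.smul_sum]
        rfl
      have h7 := hmult G (fun _ => ((t : ℝ) : ℂ)) c' (by
        intro j hj
        rw [Complex.norm_real, Real.norm_of_nonneg ht]
        exact hc' j hj)
      rw [h6, norm_smul, Complex.norm_real, Real.norm_of_nonneg ht] at h7
      have h8 : (E.card : ℝ) ^ (1 / p.toReal) ≤ (G.card : ℝ) ^ (1 / p.toReal) := by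
        apply Real.rpow_le_rpow (by positivity) (by exact_mod_cast hEG) (by positivity)
      rw [h5]
      set S := ‖∑ j ∈ G, (((2:ℝ) ^ ((lvl j : ℝ) / p.toReal) : ℝ) : ℂ) • eh μ p hg.measurable j‖ with hS
      have h9 : U * t * (E.card : ℝ) ^ (1 / p.toReal) ≤ (U / c) * (t * S) := by
        calc U * t * (E.card : ℝ) ^ (1 / p.toReal) ≤ U * t * (G.card : ℝ) ^ (1 / p.toReal) :=
              mul_le_mul_of_nonneg_left h8 (by positivity)
          _ = (U / c) * (t * (c * (G.card : ℝ) ^ (1 / p.toReal))) := by field_simp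
          _ ≤ (U / c) * (t * S) := by
              apply mul_le_mul_of_nonneg_left _ (by positivity)
              exact mul_le_mul_of_nonneg_left h4 ht
      refine h3.trans (h9.trans ?_)
      have h10 : (U / c) * (t * S) ≤ (U / c) * (C * ‖∑ j ∈ G, c' j • (hN hg j : Lp ℂ p μ)‖) :=
        mul_le_mul_of_nonneg_left h7 (by positivity)
      refine h10.trans ?_
      rw [← mul_assoc]
      apply mul_le_mul_of_nonneg_right _ (norm_nonneg _)
      have : U / c * C = C * U / c := by ring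
      rw [this]
      linarith

end space

end Pool.Agent.D0H66.Gr
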