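import Pool.Agent.D0H66.MExtMain

set_option autoImplicit false

universe u

namespace Pool.Agent.D0H66.MExt

open Cardinal TopologicalSpace Heyting

variable {Λ : Type u}

/-- Every nonempty set of the algebra contains all points whose node extends a long node `w`. -/
theorem exists_node [Infinite Λ] {a : Set (Om Λ)} (ha : a ∈ Alg Λ) (hne : a.Nonempty) (k : ℕ) :
    ∃ w : Node Λ, k < w.length ∧ N w ⊆ a := by
  obtain ⟨F, G, hF, hG, h⟩ := ha
  obtain ⟨⟨v, x⟩, hvx⟩ := hne
  obtain ⟨ξ, hξ⟩ := (labels_finite hF).exists_notMem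
  -- a bound for the digits
  obtain ⟨K, hK⟩ : ∃ K, k < K ∧ ∀ g ∈ G, g.1 < K ∧ g.2 < K := by
    obtain ⟨K1, hK1⟩ := (hG.image (fun g => g.1 + g.2)).bddAbove
    refine ⟨K1 + k + 1, by omega, fun g hg => ?_⟩
    have := hK1 ⟨g, hg, rfl⟩
    simp only at this
    constructor <;> omega
  let l : List (List Bool × Λ) :=
    (List.range (K + 1)).map (fun j => ((List.range K).map (x (v.length + j)), ξ))
  have hl : l.length = K + 1 := by simp [l]
  refine ⟨v ++ l, by rw [List.length_append, hl]; omega, ?_⟩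
  rintro ⟨v', x'⟩ hp
  change v ++ l <+: v' at hp
  refine (h _ _ ?_ ?_).1 hvx
  · have h1 : v ++ [((List.range K).map (x (v.length + 0)), ξ)] <+: v' := by
      refine List.IsPrefix.trans ?_ hp
      rw [List.prefix_append_right_inj]
      simp only [l]
      rw [List.range_succ_eq_map, List.map_cons]
      simp
    intro u hu
    exact (prefix_iff hξ h1 u hu).symm
  · intro g hg
    obtain ⟨hg1, hg2⟩ := hK.2 g hg
    have hlen : g.1 < (v ++ l).length := by rw [List.length_append, hl]; omega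
    have hlen' : g.1 < v'.length := lt_of_lt_of_le hlen hp.length_le
    rw [real_of_lt (p := (v', x')) hlen']
    have e1 : v'[g.1] = (v ++ l)[g.1] := (hp.getElem hlen).symm
    rw [e1]
    by_cases hi : g.1 < v.length
    · rw [real_of_lt (p := (v, x)) hi, List.getElem_append_left hi]
    · push Not at hi
      rw [real_of_ge (p := (v, x)) hi, List.getElem_append_right hi]
      simp only [l, List.getElem_map, List.getElem_range]
      rw [q_map _ hg2]
      congr 2
      omega

/-- The basic neighbourhood of `(v, y)`. -/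
def box (v : Node Λ) (y : ℕ → ℕ → Bool) (K : ℕ) : Set (Om Λ) :=
  {p | p.1 = v ∧ ∀ i < K, ∀ n < K, p.2 i n = y i n}

/-- The main lemma: joins of few elements are pointwise dense. -/
theorem main_lemma [Infinite Λ] {m : Cardinal.{u}} (hm : ℵ₀ ≤ m) (hΛ : m < #Λ)
    {S : Set (Alg Λ)} {a : Alg Λ}
    (hS : #S ≤ m) (ha : IsLUB S a) {v : Node Λ} {y : ℕ → ℕ → Bool} {K : ℕ}
    (hsub : box v y K ⊆ a) : ∃ s ∈ S, ((s : Set (Om Λ)) ∩ box v y K).Nonempty := by
  classical
  obtain ⟨F, G, hF, hG, h⟩ := a.2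
  let s0 : List Bool := (List.range K).map (y v.length)
  let pt : Λ → Om Λ := fun ξ => (v ++ [(s0, ξ)], y)
  let E : Λ → Set (Om Λ) := fun ξ => N (v ++ [(s0, ξ)]) ∩
    ⋂ i ∈ Finset.range K, ⋂ n ∈ Finset.range K, Dn i n (real (pt ξ) i n)
  have hE : ∀ ξ, E ξ ∈ Alg Λ := by
    intro ξ
    refine BooleanSubalgebra.inf_mem (N_mem _) ?_
    have key : ∀ (s : Finset ℕ) (f : ℕ → Set (Om Λ)), (∀ i, f i ∈ Alg Λ) →
        (⋂ i ∈ s, f i) ∈ Alg Λ := by
      intro s f hf
      induction s using Finset.induction_on with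
      | empty =>
        simp only [Finset.notMem_empty, Set.iInter_of_empty, Set.iInter_univ]
        exact BooleanSubalgebra.top_mem
      | insert i s hi ih =>
        rw [Finset.set_biInter_insert]
        exact BooleanSubalgebra.inf_mem (hf i) ih
    exact key _ _ fun i => key _ _ fun n => Dn_mem _ _ _
  have hptE : ∀ ξ, pt ξ ∈ E ξ := by
    intro ξ
    refine ⟨List.prefix_refl _, ?_⟩
    simp only [Set.mem_iInter]
    intro i _ n _
    rfl
  have hdown : ∀ ξ, ∀ p ∈ E ξ, down v y p ∈ box v y K := by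
    intro ξ p hp
    refine ⟨rfl, fun i hi n hn => ?_⟩
    simp only [down]
    split_ifs with hiv
    · rfl
    · have h1 := hp.2
      simp only [Set.mem_iInter, Finset.mem_range] at h1
      have h2 : real p i n = real (pt ξ) i n := h1 i hi n hn
      rw [h2]
      rcases eq_or_lt_of_le (not_lt.1 hiv) with h3 | h3
      · have h4 : i < (pt ξ).1.length := by
          simp [pt]
          omega
        rw [real_of_lt h4]
        subst h3
        simp only [pt]
        rw [List.getElem_append_right le_rfl]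
        simp only [Nat.sub_self, List.getElem_cons_zero, s0]
        rw [q_map _ hn]
      · rw [real_of_ge]
        simp [pt]
        omega
  -- for fresh labels we find an element of `S`
  have hex : ∀ ξ : {ξ : Λ // ξ ∉ labels F}, ∃ s : S, ((s.1 : Set (Om Λ)) ∩ E ξ.1).Nonempty := by
    rintro ⟨ξ, hξ⟩
    by_contra hcon
    push Not at hcon
    have h1 := (isLUB_iff.1 ha).2 (a ⊓ ⟨E ξ, hE ξ⟩) inf_le_left (fun s hs => ?_)
    · have h2 : pt ξ ∈ (a : Set (Om Λ)) ∩ E ξ := by
        refine ⟨?_, hptE ξ⟩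
        rw [transfer (y := y) h hξ (v := v) (s := s0) (p := pt ξ) (List.prefix_refl _)]
        exact hsub (hdown ξ _ (hptE ξ))
      have h3 : ((a ⊓ ⟨E ξ, hE ξ⟩ : Alg Λ) : Set (Om Λ)) = ∅ := by
        rw [h1]
        rfl
      have h4 : (a : Set (Om Λ)) ∩ E ξ = ∅ := h3
      rw [h4] at h2
      exact h2
    · rw [disjoint_iff]
      apply Subtype.ext
      have h2 := hcon ⟨s, hs⟩
      change (s : Set (Om Λ)) ∩ ((a : Set (Om Λ)) ∩ E ξ) = ∅
      rw [Set.eq_empty_iff_forall_notMem] at h2 ⊢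
      rintro x ⟨hx1, _, hx2⟩
      exact h2 x ⟨hx1, hx2⟩
  choose g hg using hex
  have hfin := labels_finite hF
  have hcard : m < #{ξ : Λ // ξ ∉ labels F} := by
    by_contra hcon
    push Not at hcon
    have h1 := Cardinal.mk_sum_compl (labels F)
    have h2 : #(labels F) < ℵ₀ := hfin.lt_aleph0
    have h3 : #Λ ≤ m := by
      rw [← h1]
      exact Cardinal.add_le_of_le hm (h2.le.trans hm) hcon
    exact absurd hΛ (not_lt.2 h3)
  have : Infinite {ξ : Λ // ξ ∉ labels F} := by
    rw [Cardinal.infinite_iff]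
    exact hm.trans hcard.le
  obtain ⟨s, hs⟩ := Cardinal.exists_infinite_fiber g (lt_of_le_of_lt hS hcard)
  obtain ⟨F', G', hF', hG', h'⟩ := s.1.2
  -- a label in the fibre which is fresh for `s`
  obtain ⟨ξ, hξs, hξF⟩ : ∃ ξ ∈ g ⁻¹' {s}, ξ.1 ∉ labels F' := by
    by_contra hcon
    push Not at hcon
    have h1 : (g ⁻¹' {s}).Finite := by
      have h2 : (Subtype.val '' (g ⁻¹' {s})).Finite := by
        refine (labels_finite hF').subset ?_
        rintro _ ⟨ξ, hξ, rfl⟩
        exact hcon ξ hξ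
      exact h2.of_finite_image Subtype.val_injective.injOn
    exact hs.not_finite h1
  obtain ⟨p, hp1, hp2⟩ := hg ξ
  have hgs : g ξ = s := hξs
  rw [hgs] at hp1
  refine ⟨s.1, s.2, down v y p, ?_, hdown _ _ hp2⟩
  exact (transfer h' hξF (v := v) (s := s0) (p := p) hp2.1).1 hp1

end Pool.Agent.D0H66.MExt
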