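import Mathlib

/-!
# `(J, M, m)`-extensions of Boolean algebras: definitions and general facts
-/

set_option autoImplicit false

universe u

namespace Pool.Agent.D0H66.MExt

open Cardinal

/-- `B` is a Boolean `m`-algebra: every subset of cardinality at most `m` has a join and a meet. -/
def IsMAlgebra (m : Cardinal.{u}) (B : Type u) [BooleanAlgebra B] : Prop :=
  ∀ S : Set B, #S ≤ m → (∃ b, IsLUB S b) ∧ ∃ b, IsGLB S b

/-- The Boolean homomorphism `h` is an `m`-homomorphism: it preserves the joins and meets of at most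
`m` elements. -/
def IsMHom (m : Cardinal.{u}) {B B' : Type u} [BooleanAlgebra B] [BooleanAlgebra B']
    (h : BoundedLatticeHom B B') : Prop :=
  ∀ (S : Set B) (b : B), #S ≤ m →
    (IsLUB S b → IsLUB (h '' S) (h b)) ∧ (IsGLB S b → IsGLB (h '' S) (h b))

/-- `G` `m`-generates `B`: the least subalgebra of `B` which contains `G` and is closed under joins
and meets of at most `m` elements is `B`. -/
def MGenerates (m : Cardinal.{u}) {B : Type u} [BooleanAlgebra B] (G : Set B) : Prop :=
  ∀ T : BooleanSubalgebra B, G ⊆ T →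
    (∀ (S : Set B) (b : B), S ⊆ T → #S ≤ m → (IsLUB S b ∨ IsGLB S b) → b ∈ T) → T = ⊤

/-- `J` and `M` are sets of subsets of `A` of cardinality at most `m`; the members of `J` have a join
in `A`, and the members of `M` have a meet in `A`. -/
structure Admissible (m : Cardinal.{u}) {A : Type u} [BooleanAlgebra A] (J M : Set (Set A)) :
    Prop where
  cardJ : ∀ S ∈ J, #S ≤ m
  cardM : ∀ S ∈ M, #S ≤ m
  joinJ : ∀ S ∈ J, ∃ a, IsLUB S a
  meetM : ∀ S ∈ M, ∃ a, IsGLB S a

/-- A pair `{i, B}`: a Boolean algebra `B` and a homomorphism `i` of `A` into `B`. -/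
structure Pair (A : Type u) [BooleanAlgebra A] where
  B : Type u
  [alg : BooleanAlgebra B]
  i : BoundedLatticeHom A B

attribute [instance] Pair.alg

variable {A : Type u} [BooleanAlgebra A]

/-- `{i, B}` is a `(J, M, m)`-extension of `A`. -/
structure IsExtension (m : Cardinal.{u}) (J M : Set (Set A)) (E : Pair A) : Prop where
  malg : IsMAlgebra m E.B
  inj : Function.Injective E.i
  join : ∀ S ∈ J, ∀ a, IsLUB S a → IsLUB (E.i '' S) (E.i a)
  meet : ∀ S ∈ M, ∀ a, IsGLB S a → IsGLB (E.i '' S) (E.i a)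
  gen : MGenerates m (Set.range E.i)

/-- `{i, B}` is an `m`-completion of `A`. -/
structure IsCompletion (m : Cardinal.{u}) (E : Pair A) : Prop where
  malg : IsMAlgebra m E.B
  inj : Function.Injective E.i
  dense : ∀ b : E.B, b ≠ ⊥ → ∃ a : A, E.i a ≠ ⊥ ∧ E.i a ≤ b
  gen : MGenerates m (Set.range E.i)

/-- The quasi-order: `{i', B'} ≤ {i, B}` if `i' = h ∘ i` for some `m`-homomorphism `h : B → B'`. -/
def Le (m : Cardinal.{u}) (E' E : Pair A) : Prop :=
  ∃ h : BoundedLatticeHom E.B E'.B, IsMHom m h ∧ ∀ a, E'.i a = h (E.i a)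

/-- `E` is a smallest element of the class of all `(J, M, m)`-extensions. -/
def IsSmallest (m : Cardinal.{u}) (J M : Set (Set A)) (E : Pair A) : Prop :=
  IsExtension m J M E ∧ ∀ E' : Pair A, IsExtension m J M E' → Le m E E'

/-! ### Joins in Boolean algebras -/

section Boolean

variable {B : Type u} [BooleanAlgebra B]

theorem isLUB_iff {S : Set B} {b : B} :
    IsLUB S b ↔ (∀ s ∈ S, s ≤ b) ∧ ∀ c, c ≤ b → (∀ s ∈ S, Disjoint s c) → c = ⊥ := by
  constructor
  · rintro ⟨h1, h2⟩
    refine ⟨fun s hs => h1 hs, fun c hc hd => ?_⟩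
    have h3 : b ≤ cᶜ := h2 (fun s hs => le_compl_iff_disjoint_right.2 (hd s hs))
    have h4 : c ≤ cᶜ := hc.trans h3
    exact disjoint_self.1 (le_compl_iff_disjoint_right.1 h4)
  · rintro ⟨h1, h2⟩
    refine ⟨fun s hs => h1 s hs, fun d hd => ?_⟩
    have h3 : b ⊓ dᶜ = ⊥ := by
      refine h2 _ inf_le_left (fun s hs => ?_)
      have h4 : s ≤ d := hd hs
      exact (disjoint_compl_right.mono_left h4).mono_right inf_le_right
    have h5 : Disjoint b dᶜ := disjoint_iff.2 h3
    exact disjoint_compl_right_iff.1 h5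

theorem isGLB_iff_compl {S : Set B} {b : B} : IsGLB S b ↔ IsLUB (compl '' S) bᶜ := by
  constructor
  · rintro ⟨h1, h2⟩
    refine ⟨?_, ?_⟩
    · rintro _ ⟨s, hs, rfl⟩
      exact compl_le_compl (h1 hs)
    · intro d hd
      have : dᶜ ∈ lowerBounds S := by
        intro s hs
        exact compl_le_of_compl_le (hd ⟨s, hs, rfl⟩)
      exact compl_le_of_compl_le (h2 this)
  · rintro ⟨h1, h2⟩
    refine ⟨?_, ?_⟩
    · intro s hs
      exact compl_le_compl_iff_le.1 (h1 ⟨s, hs, rfl⟩)
    · intro d hd
      have : dᶜ ∈ upperBounds (compl '' S) := by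
        rintro _ ⟨s, hs, rfl⟩
        exact compl_le_compl (hd hs)
      exact compl_le_compl_iff_le.1 (h2 this)

theorem mk_compl_image (S : Set B) : #(compl '' S) = #S :=
  Cardinal.mk_image_eq compl_injective

/-- A homomorphism which preserves the joins of at most `m` elements preserves the meets, too. -/
theorem preserves_meets {m : Cardinal.{u}} {B' : Type u} [BooleanAlgebra B']
    (h : BoundedLatticeHom B B')
    (hj : ∀ (S : Set B) (b : B), #S ≤ m → IsLUB S b → IsLUB (h '' S) (h b)) :
    ∀ (S : Set B) (b : B), #S ≤ m → IsGLB S b → IsGLB (h '' S) (h b) := by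
  intro S b hS hb
  rw [isGLB_iff_compl] at hb ⊢
  have h1 := hj _ _ (by rw [mk_compl_image]; exact hS) hb
  have h2 : h '' (compl '' S) = compl '' (h '' S) := by
    rw [Set.image_image, Set.image_image]
    exact Set.image_congr fun x _ => by rw [map_compl']
  rw [h2, map_compl'] at h1
  exact h1

theorem isMHom_of_joins {m : Cardinal.{u}} {B' : Type u} [BooleanAlgebra B']
    (h : BoundedLatticeHom B B')
    (hj : ∀ (S : Set B) (b : B), #S ≤ m → IsLUB S b → IsLUB (h '' S) (h b)) : IsMHom m h :=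
  fun S b hS => ⟨hj S b hS, preserves_meets h hj S b hS⟩

end Boolean

end Pool.Agent.D0H66.MExt
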