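import Pool.Agent.D0H66.MExtDefs

/-!
# The `m`-subalgebra generated by a set in a complete Boolean algebra
-/

set_option autoImplicit false

universe u

namespace Pool.Agent.D0H66.MExt

open Cardinal

variable {C : Type u} [BooleanAlgebra C]

/-- The least subalgebra which contains `G` and is closed under joins of at most `m` elements. -/
def mclosure (m : Cardinal.{u}) (G : Set C) : BooleanSubalgebra C :=
  sInf {L | G ⊆ L ∧ ∀ (S : Set C) (b : C), S ⊆ L → #S ≤ m → IsLUB S b → b ∈ L}

theorem mem_mclosure {m : Cardinal.{u}} {G : Set C} {x : C} : x ∈ mclosure m G ↔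
    ∀ L : BooleanSubalgebra C, G ⊆ L →
      (∀ (S : Set C) (b : C), S ⊆ L → #S ≤ m → IsLUB S b → b ∈ L) → x ∈ L := by
  unfold mclosure
  rw [BooleanSubalgebra.mem_sInf]
  exact ⟨fun h L h1 h2 => h L ⟨h1, h2⟩, fun h L hL => h L hL.1 hL.2⟩

theorem subset_mclosure (m : Cardinal.{u}) (G : Set C) : G ⊆ mclosure m G := by
  intro g hg
  exact mem_mclosure.2 fun L h1 _ => h1 hg

theorem lub_mem_mclosure {m : Cardinal.{u}} {G : Set C} {S : Set C} {b : C}
    (hS : S ⊆ mclosure m G) (hm : #S ≤ m) (hb : IsLUB S b) : b ∈ mclosure m G := by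
  refine mem_mclosure.2 fun L h1 h2 => h2 S b (fun s hs => ?_) hm hb
  exact mem_mclosure.1 (hS hs) L h1 h2

theorem mclosure_le {m : Cardinal.{u}} {G : Set C} {L : BooleanSubalgebra C} (h1 : G ⊆ L)
    (h2 : ∀ (S : Set C) (b : C), S ⊆ L → #S ≤ m → IsLUB S b → b ∈ L) : mclosure m G ≤ L :=
  sInf_le ⟨h1, h2⟩

variable (hC : ∀ S : Set C, ∃ b, IsLUB S b)

include hC in
/-- The join in the `m`-closure is the join in the big algebra. -/
theorem isLUB_coe {m : Cardinal.{u}} {G : Set C} {S : Set (mclosure m G)} {b : mclosure m G}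
    (hm : #S ≤ m) : IsLUB S b ↔ IsLUB ((↑) '' S : Set C) (b : C) := by
  have hsub : ((↑) '' S : Set C) ⊆ mclosure m G := by
    rintro _ ⟨s, _, rfl⟩
    exact s.2
  have hcard : #((↑) '' S : Set C) ≤ m := mk_image_le.trans hm
  obtain ⟨c, hc⟩ := hC ((↑) '' S : Set C)
  have hcm : c ∈ mclosure m G := lub_mem_mclosure hsub hcard hc
  have hc' : IsLUB S (⟨c, hcm⟩ : mclosure m G) := by
    refine ⟨fun s hs => ?_, fun d hd => ?_⟩
    · exact hc.1 ⟨s, hs, rfl⟩
    · refine hc.2 ?_
      rintro _ ⟨s, hs, rfl⟩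
      exact hd hs
  constructor
  · intro h
    have : b = ⟨c, hcm⟩ := h.unique hc'
    rw [this]
    exact hc
  · intro h
    have : (b : C) = c := h.unique hc
    have h2 : b = ⟨c, hcm⟩ := Subtype.ext this
    rw [h2]
    exact hc'

include hC in
theorem isMAlgebra_mclosure (m : Cardinal.{u}) (G : Set C) : IsMAlgebra m (mclosure m G) := by
  have key : ∀ S : Set (mclosure m G), #S ≤ m → ∃ b, IsLUB S b := by
    intro S hS
    obtain ⟨c, hc⟩ := hC ((↑) '' S : Set C)
    have hcm : c ∈ mclosure m G := by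
      refine lub_mem_mclosure ?_ (mk_image_le.trans hS) hc
      rintro _ ⟨s, _, rfl⟩
      exact s.2
    exact ⟨⟨c, hcm⟩, (isLUB_coe hC hS).2 hc⟩
  intro S hS
  refine ⟨key S hS, ?_⟩
  obtain ⟨b, hb⟩ := key (compl '' S) (by rw [mk_compl_image]; exact hS)
  refine ⟨bᶜ, ?_⟩
  rw [isGLB_iff_compl, compl_compl]
  exact hb

include hC in
theorem mgenerates_mclosure (m : Cardinal.{u}) (G : Set C) :
    MGenerates m ({x : mclosure m G | (x : C) ∈ G}) := by
  intro T hT hcl
  have h1 : mclosure m G ≤ T.map (mclosure m G).subtype := by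
    refine mclosure_le ?_ ?_
    · intro g hg
      exact ⟨⟨g, subset_mclosure m G hg⟩, hT hg, rfl⟩
    · intro S b hS hSm hb
      -- pull `S` back
      have hSL : S ⊆ mclosure m G := by
        intro s hs
        obtain ⟨t, _, rfl⟩ := hS hs
        exact t.2
      have hbm : b ∈ mclosure m G := lub_mem_mclosure hSL hSm hb
      refine ⟨⟨b, hbm⟩, ?_, rfl⟩
      let S0 : Set (mclosure m G) := {x | (x : C) ∈ S}
      have hS0 : ((↑) '' S0 : Set C) = S := by
        ext x
        constructor
        · rintro ⟨y, hy, rfl⟩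
          exact hy
        · intro hx
          exact ⟨⟨x, hSL hx⟩, hx, rfl⟩
      have hcard : #S0 ≤ m := by
        rw [← mk_image_eq (s := S0) Subtype.coe_injective, hS0]
        exact hSm
      refine hcl S0 ⟨b, hbm⟩ ?_ hcard (Or.inl ?_)
      · intro x hx
        obtain ⟨t, ht, h⟩ := hS hx
        have : x = t := Subtype.ext h.symm
        rw [this]
        exact ht
      · rw [isLUB_coe hC hcard, hS0]
        exact hb
  rw [eq_top_iff]
  intro x _
  obtain ⟨t, ht, h⟩ := h1 x.2
  have : x = t := Subtype.ext h.symm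
  rw [this]
  exact ht

/-- The homomorphism into the `m`-closure of its range. -/
def codRestrict {A : Type u} [BooleanAlgebra A] (m : Cardinal.{u}) (f : BoundedLatticeHom A C) :
    BoundedLatticeHom A (mclosure m (Set.range f)) where
  toFun a := ⟨f a, subset_mclosure m _ ⟨a, rfl⟩⟩
  map_sup' a b := Subtype.ext (map_sup f a b)
  map_inf' a b := Subtype.ext (map_inf f a b)
  map_top' := Subtype.ext (map_top f)
  map_bot' := Subtype.ext (map_bot f)

theorem range_codRestrict {A : Type u} [BooleanAlgebra A] (m : Cardinal.{u})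
    (f : BoundedLatticeHom A C) :
    Set.range (codRestrict m f) = {x : mclosure m (Set.range f) | (x : C) ∈ Set.range f} := by
  ext x
  constructor
  · rintro ⟨a, rfl⟩
    exact ⟨a, rfl⟩
  · rintro ⟨a, ha⟩
    exact ⟨a, Subtype.ext ha⟩

/-- The pair given by a homomorphism into a complete Boolean algebra. -/
def mpair {A : Type u} [BooleanAlgebra A] (m : Cardinal.{u}) (f : BoundedLatticeHom A C) :
    Pair A where
  B := mclosure m (Set.range f)
  i := codRestrict m f

include hC in
theorem mpair_gen {A : Type u} [BooleanAlgebra A] (m : Cardinal.{u}) (f : BoundedLatticeHom A C) :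
    MGenerates m (Set.range (mpair m f).i) := by
  change MGenerates m (Set.range (codRestrict m f))
  rw [range_codRestrict]
  exact mgenerates_mclosure hC m _

include hC in
theorem mpair_isCompletion {A : Type u} [BooleanAlgebra A] (m : Cardinal.{u})
    (f : BoundedLatticeHom A C) (hinj : Function.Injective f)
    (hd : ∀ c : C, c ≠ ⊥ → ∃ a, f a ≠ ⊥ ∧ f a ≤ c) : IsCompletion m (mpair m f) where
  malg := isMAlgebra_mclosure hC m _
  inj := fun a b h => hinj (congrArg Subtype.val h)
  dense := by
    intro (b : mclosure m (Set.range f)) hb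
    obtain ⟨a, ha1, ha2⟩ := hd (b : C) (fun h => hb (Subtype.ext h))
    exact ⟨a, fun h => ha1 (congrArg Subtype.val h), ha2⟩
  gen := mpair_gen hC m f

include hC in
theorem mpair_isExtension {A : Type u} [BooleanAlgebra A] {m : Cardinal.{u}} {J M : Set (Set A)}
    (hJM : Admissible m J M)
    (f : BoundedLatticeHom A C) (hinj : Function.Injective f)
    (hj : ∀ (S : Set A) (a : A), #S ≤ m → IsLUB S a → IsLUB (f '' S) (f a)) :
    IsExtension m J M (mpair m f) := by
  have hj' : ∀ (S : Set A) (a : A), #S ≤ m → IsLUB S a →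
      IsLUB ((mpair m f).i '' S) ((mpair m f).i a) := by
    intro S a hS ha
    change IsLUB (codRestrict m f '' S) (codRestrict m f a)
    have h1 : #(codRestrict m f '' S) ≤ m := mk_image_le.trans hS
    refine (isLUB_coe hC h1).2 ?_
    rw [Set.image_image]
    exact hj S a hS ha
  exact
    { malg := isMAlgebra_mclosure hC m _
      inj := fun a b h => hinj (congrArg Subtype.val h)
      join := fun S hS a ha => hj' S a (hJM.cardJ S hS) ha
      meet := fun S hS a ha => preserves_meets _ hj' S a (hJM.cardM S hS) ha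
      gen := mpair_gen hC m f }

end Pool.Agent.D0H66.MExt
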