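import Pool.Agent.D0H66.MExtRO

/-!
# A Boolean algebra without smallest `(J, M, m)`-extension
-/

set_option autoImplicit false

universe u

namespace Pool.Agent.D0H66.MExt

open Cardinal TopologicalSpace Heyting

variable (Λ : Type u)

/-- Nodes of the tree: finite sequences of pairs (finite 0-1-sequence, label). -/
abbrev Node : Type u := List (List Bool × Λ)

/-- Points: a node and an infinite sequence of reals. -/
abbrev Om : Type u := Node Λ × (ℕ → ℕ → Bool)

/-- The real `s 0 0 0 ...`. -/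
def q (s : List Bool) (n : ℕ) : Bool := s.getD n false

variable {Λ}

/-- The `i`-th real of a point: it is given by the node, if the node is long enough. -/
def real (p : Om Λ) (i n : ℕ) : Bool := if h : i < p.1.length then q (p.1[i]).1 n else p.2 i n

theorem real_of_lt {p : Om Λ} {i : ℕ} (h : i < p.1.length) (n : ℕ) :
    real p i n = q (p.1[i]).1 n := by
  unfold real
  rw [dif_pos h]

theorem real_of_ge {p : Om Λ} {i : ℕ} (h : p.1.length ≤ i) (n : ℕ) : real p i n = p.2 i n := by
  unfold real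
  rw [dif_neg (not_lt.2 h)]

/-- The set `a` depends only on the nodes in `F` and the digits of the reals in `G`. -/
def Dep (a : Set (Om Λ)) (F : Set (Node Λ)) (G : Set (ℕ × ℕ)) : Prop :=
  ∀ p p' : Om Λ, (∀ u ∈ F, u <+: p.1 ↔ u <+: p'.1) →
    (∀ g ∈ G, real p g.1 g.2 = real p' g.1 g.2) → (p ∈ a ↔ p' ∈ a)

theorem Dep.mono {a : Set (Om Λ)} {F F' : Set (Node Λ)} {G G' : Set (ℕ × ℕ)} (h : Dep a F G)
    (hF : F ⊆ F') (hG : G ⊆ G') : Dep a F' G' :=
  fun p p' h1 h2 => h p p' (fun u hu => h1 u (hF hu)) (fun g hg => h2 g (hG hg))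

variable (Λ)

/-- The algebra of all sets which depend only on finitely many nodes and digits. -/
def Alg : BooleanSubalgebra (Set (Om Λ)) where
  carrier := {a | ∃ F G, F.Finite ∧ G.Finite ∧ Dep a F G}
  supClosed' := by
    rintro a ⟨F, G, hF, hG, h⟩ b ⟨F', G', hF', hG', h'⟩
    refine ⟨F ∪ F', G ∪ G', hF.union hF', hG.union hG', fun p p' h1 h2 => ?_⟩
    have e1 := (h.mono Set.subset_union_left Set.subset_union_left) p p' h1 h2
    have e2 := (h'.mono Set.subset_union_right Set.subset_union_right) p p' h1 h2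
    exact or_congr e1 e2
  infClosed' := by
    rintro a ⟨F, G, hF, hG, h⟩ b ⟨F', G', hF', hG', h'⟩
    refine ⟨F ∪ F', G ∪ G', hF.union hF', hG.union hG', fun p p' h1 h2 => ?_⟩
    have e1 := (h.mono Set.subset_union_left Set.subset_union_left) p p' h1 h2
    have e2 := (h'.mono Set.subset_union_right Set.subset_union_right) p p' h1 h2
    exact and_congr e1 e2
  compl_mem' := by
    rintro a ⟨F, G, hF, hG, h⟩
    exact ⟨F, G, hF, hG, fun p p' h1 h2 => not_congr (h p p' h1 h2)⟩
  bot_mem' := ⟨∅, ∅, Set.finite_empty, Set.finite_empty, fun p p' _ _ => Iff.rfl⟩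

variable {Λ}

theorem mem_Alg {a : Set (Om Λ)} :
    a ∈ Alg Λ ↔ ∃ F G, F.Finite ∧ G.Finite ∧ Dep a F G := Iff.rfl

/-- All points whose node extends `u`. -/
def N (u : Node Λ) : Set (Om Λ) := {p | u <+: p.1}

theorem N_mem (u : Node Λ) : N u ∈ Alg Λ :=
  ⟨{u}, ∅, Set.finite_singleton _, Set.finite_empty, fun _ _ h1 _ => h1 u rfl⟩

/-- All points whose `i`-th real has the `n`-th digit `b`. -/
def Dn (i n : ℕ) (b : Bool) : Set (Om Λ) := {p | real p i n = b}

theorem Dn_mem (i n : ℕ) (b : Bool) : (Dn i n b : Set (Om Λ)) ∈ Alg Λ :=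
  ⟨∅, {(i, n)}, Set.finite_empty, Set.finite_singleton _, fun p p' _ h2 => by
    have := h2 (i, n) rfl
    unfold Dn
    rw [Set.mem_ofPred_eq, Set.mem_ofPred_eq, this]⟩

/-- The set of labels in a set of nodes. -/
def labels (F : Set (Node Λ)) : Set Λ := ⋃ u ∈ F, {ξ | ∃ s, (s, ξ) ∈ u}

theorem labels_finite {F : Set (Node Λ)} (hF : F.Finite) : (labels F).Finite := by
  refine hF.biUnion fun u _ => ?_
  have : {ξ | ∃ s, (s, ξ) ∈ u} = Prod.snd '' {x | x ∈ u} := by
    ext ξ
    constructor
    · rintro ⟨s, hs⟩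
      exact ⟨(s, ξ), hs, rfl⟩
    · rintro ⟨⟨s, ξ'⟩, hs, rfl⟩
      exact ⟨s, hs⟩
  rw [this]
  exact (List.finite_toSet u).image _

/-- A fresh label does not matter. -/
theorem prefix_iff {F : Set (Node Λ)} {ξ : Λ} (hξ : ξ ∉ labels F) {v w : Node Λ}
    {s : List Bool} (h : v ++ [(s, ξ)] <+: w) : ∀ u ∈ F, u <+: w ↔ u <+: v := by
  intro u hu
  have hξu : ∀ t, (t, ξ) ∉ u := fun t ht => hξ (Set.mem_biUnion hu ⟨t, ht⟩)
  constructor
  · intro h1
    rcases List.prefix_or_prefix_of_prefix h1 h with h2 | h2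
    · rw [List.prefix_concat_iff] at h2
      rcases h2 with h2 | h2
      · exfalso
        apply hξu s
        rw [h2]
        simp
      · exact h2
    · exfalso
      apply hξu s
      exact h2.subset (by simp)
  · intro h1
    exact (h1.trans (List.prefix_append _ _)).trans h

/-- Cut the node of the point down to `v`. -/
def down (v : Node Λ) (y : ℕ → ℕ → Bool) (p : Om Λ) : Om Λ :=
  (v, fun i n => if i < v.length then y i n else real p i n)

theorem real_down {v : Node Λ} {y : ℕ → ℕ → Bool} {p : Om Λ} (h : v <+: p.1) (i n : ℕ) :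
    real (down v y p) i n = real p i n := by
  by_cases hi : i < v.length
  · have hi' : i < p.1.length := lt_of_lt_of_le hi h.length_le
    rw [real_of_lt (p := down v y p) hi, real_of_lt hi']
    congr 2
    exact h.getElem hi
  · rw [real_of_ge (p := down v y p) (not_lt.1 hi)]
    simp only [down, if_neg hi]

theorem transfer {a : Set (Om Λ)} {F : Set (Node Λ)} {G : Set (ℕ × ℕ)} (h : Dep a F G)
    {ξ : Λ} (hξ : ξ ∉ labels F) {v : Node Λ} {y : ℕ → ℕ → Bool} {s : List Bool} {p : Om Λ}
    (hp : v ++ [(s, ξ)] <+: p.1) : p ∈ a ↔ down v y p ∈ a := by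
  refine h p _ (prefix_iff hξ hp) fun g _ => ?_
  exact (real_down ((List.prefix_append _ _).trans hp) _ _).symm

theorem q_map (f : ℕ → Bool) {K n : ℕ} (h : n < K) : q ((List.range K).map f) n = f n := by
  unfold q
  rw [List.getD_eq_getElem _ _ (by simpa using h)]
  simp

end Pool.Agent.D0H66.MExt
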