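import Pool.Agent.D0H66.MExtGen

/-!
# Regular open sets
-/

set_option autoImplicit false

universe u

namespace Pool.Agent.D0H66.MExt

open Cardinal TopologicalSpace Heyting

section RO

variable (X : Type u) [TopologicalSpace X]

/-- The complete Boolean algebra of regular open sets. -/
abbrev RO : Type u := Regular (Opens X)

variable {X}

theorem RO_lub (S : Set (RO X)) : ∃ b, IsLUB S b := by
  refine ⟨Regular.toRegular (sSup (Regular.val '' S)), ?_⟩
  exact (Regular.gi (α := Opens X)).isLUB_of_u_image (isLUB_sSup _)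

theorem RO_disjoint {a b : RO X} : Disjoint a b ↔ Disjoint (a.val : Set X) (b.val : Set X) := by
  rw [Opens.coe_disjoint, disjoint_iff, disjoint_iff]
  constructor
  · intro h
    exact congrArg Regular.val h
  · intro h
    exact Regular.coe_injective h

theorem RO_eq_bot {a : RO X} : a = ⊥ ↔ (a.val : Set X) = ∅ := by
  rw [← Regular.coe_inj, Regular.coe_bot, ← Opens.coe_eq_empty]

theorem RO_ne_bot {a : RO X} : a ≠ ⊥ ↔ (a.val : Set X).Nonempty := by
  rw [ne_eq, RO_eq_bot, Set.nonempty_iff_ne_empty]

theorem RO_le {a b : RO X} : a ≤ b ↔ (a.val : Set X) ⊆ b.val := by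
  rw [← Regular.coe_le_coe]
  exact Iff.rfl

variable (D : BooleanSubalgebra (Set X)) (hD : ∀ a ∈ D, IsOpen a)

/-- A set of the field `D`, as an open set. -/
def toOpens (a : D) : Opens X := ⟨a, hD a a.2⟩

theorem toOpens_compl (a : D) : IsCompl (toOpens D hD a) (toOpens D hD aᶜ) := by
  constructor
  · rw [← Opens.coe_disjoint]
    exact disjoint_compl_right
  · rw [codisjoint_iff]
    ext x
    simp only [toOpens, Opens.coe_sup, Opens.coe_mk, Opens.coe_top]
    rw [BooleanSubalgebra.val_compl, Set.union_compl_self]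

/-- A set of the field `D`, as a regular open set. -/
def toROfun (a : D) : RO X := ⟨toOpens D hD a, by
    rw [Heyting.IsRegular, (toOpens_compl D hD a).compl_eq,
      (toOpens_compl D hD a).symm.compl_eq]⟩

theorem toROfun_val (a : D) : (toROfun D hD a).val = toOpens D hD a := rfl

/-- The homomorphism of the field `D` into the algebra of regular open sets. -/
def toRO : BoundedLatticeHom D (RO X) where
  toFun := toROfun D hD
  map_sup' a b := by
    apply Regular.coe_injective
    rw [Regular.coe_sup, toROfun_val, toROfun_val, toROfun_val]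
    have h : toOpens D hD a ⊔ toOpens D hD b = toOpens D hD (a ⊔ b) := by
      ext x
      rfl
    rw [h, (toOpens_compl D hD _).compl_eq, (toOpens_compl D hD _).symm.compl_eq]
  map_inf' a b := by
    apply Regular.coe_injective
    ext x
    rfl
  map_top' := by
    apply Regular.coe_injective
    ext x
    rfl
  map_bot' := by
    apply Regular.coe_injective
    ext x
    rfl

theorem toRO_val (a : D) : ((toRO D hD a).val : Set X) = a := rfl

theorem toRO_injective : Function.Injective (toRO D hD) := by
  intro a b h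
  apply Subtype.ext
  rw [← toRO_val D hD a, ← toRO_val D hD b, h]

/-- Criterion for a join. -/
theorem toRO_isLUB {S : Set D} {a : D} (h1 : ∀ s ∈ S, s ≤ a)
    (h2 : ∀ O : Set X, IsOpen O → O ⊆ a → O.Nonempty → ∃ s ∈ S, ((s : Set X) ∩ O).Nonempty) :
    IsLUB (toRO D hD '' S) (toRO D hD a) := by
  rw [isLUB_iff]
  constructor
  · rintro _ ⟨s, hs, rfl⟩
    exact h1 s hs
  · intro c hc hd
    by_contra hne
    obtain ⟨s, hs, x, hx1, hx2⟩ := h2 c.val c.val.isOpen (RO_le.1 hc) (RO_ne_bot.1 hne)
    have h3 := RO_disjoint.1 (hd _ ⟨s, hs, rfl⟩)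
    exact Set.disjoint_left.1 h3 hx1 hx2

end RO

end Pool.Agent.D0H66.MExt
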