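import Pool.Agent.D0H66.MExtCore

set_option autoImplicit false

universe u

namespace Pool.Agent.D0H66.MExt

open Cardinal TopologicalSpace Heyting

/-- The element of the algebra which says that the `i`-th real agrees with `s 0 0 0 ...` in the
digit `n`. -/
def cel {Λ : Type u} (i : ℕ) (s : List Bool) (n : ℕ) : Alg Λ := ⟨Dn i n (q s n), Dn_mem _ _ _⟩

section One

/-- The finer topology on the set of points: the nodes are discrete. -/
@[instance_reducible] def top1 (Λ : Type u) : TopologicalSpace (Om Λ) where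
  IsOpen U := ∀ p ∈ U, ∃ K, box p.1 p.2 K ⊆ U
  isOpen_univ := fun _ _ => ⟨0, Set.subset_univ _⟩
  isOpen_inter := by
    intro U V hU hV p hp
    obtain ⟨K, hK⟩ := hU p hp.1
    obtain ⟨K', hK'⟩ := hV p hp.2
    refine ⟨max K K', fun p' hp' => ⟨hK ?_, hK' ?_⟩⟩
    · exact ⟨hp'.1, fun i hi n hn => hp'.2 i (lt_of_lt_of_le hi (le_max_left _ _)) n
        (lt_of_lt_of_le hn (le_max_left _ _))⟩
    · exact ⟨hp'.1, fun i hi n hn => hp'.2 i (lt_of_lt_of_le hi (le_max_right _ _)) n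
        (lt_of_lt_of_le hn (le_max_right _ _))⟩
  isOpen_sUnion := by
    intro S hS p hp
    obtain ⟨U, hU, hpU⟩ := hp
    obtain ⟨K, hK⟩ := hS U hU p hpU
    exact ⟨K, hK.trans (Set.subset_sUnion_of_mem hU)⟩

attribute [local instance] top1

variable {Λ : Type u}

theorem isOpen_iff1 {U : Set (Om Λ)} : IsOpen U ↔ ∀ p ∈ U, ∃ K, box p.1 p.2 K ⊆ U := Iff.rfl

theorem alg_open1 : ∀ a ∈ Alg Λ, IsOpen a := by
  rintro a ⟨F, G, hF, hG, h⟩
  rw [isOpen_iff1]
  rintro ⟨v, x⟩ hp
  obtain ⟨K, hK⟩ : ∃ K, ∀ g ∈ G, g.1 < K ∧ g.2 < K := by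
    obtain ⟨K1, hK1⟩ := (hG.image (fun g => g.1 + g.2)).bddAbove
    refine ⟨K1 + 1, fun g hg => ?_⟩
    have := hK1 ⟨g, hg, rfl⟩
    simp only at this
    constructor <;> omega
  refine ⟨K, ?_⟩
  rintro ⟨v', x'⟩ ⟨h1, h2⟩
  simp only at h1 h2
  subst h1
  refine (h (v', x) (v', x') (fun _ _ => Iff.rfl) (fun g hg => ?_)).1 hp
  unfold real
  split_ifs
  · rfl
  · exact (h2 _ (hK g hg).1 _ (hK g hg).2).symm

theorem preserves1 [Infinite Λ] {m : Cardinal.{u}} (hm : ℵ₀ ≤ m) (hΛ : m < #Λ)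
    (S : Set (Alg Λ)) (a : Alg Λ) (hS : #S ≤ m) (ha : IsLUB S a) :
    IsLUB (toRO (Alg Λ) alg_open1 '' S) (toRO (Alg Λ) alg_open1 a) := by
  refine toRO_isLUB _ _ (fun s hs => ha.1 hs) ?_
  intro O hO hOa ⟨p, hp⟩
  obtain ⟨K, hK⟩ := isOpen_iff1.1 hO p hp
  obtain ⟨s, hs, x, hx1, hx2⟩ := main_lemma hm hΛ hS ha (hK.trans hOa)
  exact ⟨s, hs, x, hx1, hK hx2⟩

/-- The open set of all points with the node `v`. -/
def fib (v : Node Λ) : Opens (Om Λ) := ⟨{p | p.1 = v}, by
  rw [isOpen_iff1]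
  rintro p rfl
  exact ⟨0, fun p' hp' => hp'.1⟩⟩

theorem disjoint_toRegular {b : RO (Om Λ)} {U : Opens (Om Λ)} (h : Disjoint b.val U) :
    Disjoint b (Regular.toRegular U) := by
  rw [disjoint_iff]
  apply Regular.coe_injective
  change b.val ⊓ Uᶜᶜ = ⊥
  rw [← disjoint_iff, ← le_compl_iff_disjoint_right, compl_compl_compl]
  exact le_compl_iff_disjoint_right.2 h

theorem disjoint_of_isLUB {B : Type u} [BooleanAlgebra B] {S : Set B} {b t : B} (hb : IsLUB S b)
    (h : ∀ s ∈ S, Disjoint s t) : Disjoint b t := by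
  rw [← le_compl_iff_disjoint_right]
  exact hb.2 fun s hs => le_compl_iff_disjoint_right.2 (h s hs)

/-- The extension in which the term is zero. -/
theorem exists_ext [Infinite Λ] {m : Cardinal.{u}} (hm : ℵ₀ ≤ m) (hΛ : m < #Λ) :
    ∃ E : Pair (Alg Λ), (∀ J M : Set (Set (Alg Λ)), Admissible m J M → IsExtension m J M E) ∧
      ∀ (β : ℕ → List Bool → E.B) (γ : ℕ → E.B),
        (∀ i s, IsGLB (Set.range fun n => E.i (cel i s n)) (β i s)) →
        (∀ i, IsLUB (Set.range (β i)) (γ i)) → IsGLB (Set.range γ) ⊥ := by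
  refine ⟨mpair m (toRO (Alg Λ) alg_open1), fun J M hJM => ?_, ?_⟩
  · exact mpair_isExtension RO_lub hJM _ (toRO_injective _ _)
      (fun S a hS ha => preserves1 hm hΛ S a hS ha)
  · intro (β : ℕ → List Bool → mclosure m (Set.range (toRO (Alg Λ) alg_open1)))
      (γ : ℕ → mclosure m (Set.range (toRO (Alg Λ) alg_open1))) hβ hγ
    have hcount : ∀ {ι : Type} [Countable ι]
        (f : ι → mclosure m (Set.range (toRO (Alg Λ) alg_open1))), #(Set.range f) ≤ m :=
      fun f => ((Set.countable_range f).le_aleph0).trans hm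
    -- the joins are joins of regular open sets
    have hγ' : ∀ i, IsLUB ((↑) '' Set.range (β i) : Set (RO (Om Λ))) (γ i : RO (Om Λ)) :=
      fun i => (isLUB_coe RO_lub (hcount _)).1 (hγ i)
    have hβ' : ∀ i s n, (β i s : RO (Om Λ)) ≤ toRO (Alg Λ) alg_open1 (cel i s n) :=
      fun i s n => (hβ i s).1 ⟨n, rfl⟩
    have h1 : ∀ (v : Node Λ) (s : List Bool),
        Disjoint (β v.length s : RO (Om Λ)).val (fib v) := by
      intro v s
      rw [← Opens.coe_disjoint, Set.disjoint_left]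
      rintro ⟨w, x⟩ hx hw
      change w = v at hw
      subst hw
      obtain ⟨K, hK⟩ := isOpen_iff1.1 (β w.length s : RO (Om Λ)).val.isOpen _ hx
      have h2 : ((w, fun i n => if n < K then x i n else !(q s n)) : Om Λ) ∈
          ((β w.length s : RO (Om Λ)).val : Set (Om Λ)) := by
        apply hK
        refine ⟨rfl, fun i _ n hn => ?_⟩
        simp only [if_pos hn]
      have h3 := RO_le.1 (hβ' w.length s K) h2
      have h4 : real ((w, fun i n => if n < K then x i n else !(q s n)) : Om Λ) w.length K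
          = q s K := h3
      rw [real_of_ge (p := ((w, fun i n => if n < K then x i n else !(q s n)) : Om Λ)) le_rfl]
        at h4
      simp at h4
    have h5 : ∀ v : Node Λ, Disjoint (γ v.length : RO (Om Λ)) (Regular.toRegular (fib v)) := by
      intro v
      refine disjoint_of_isLUB (hγ' v.length) ?_
      rintro _ ⟨_, ⟨s, rfl⟩, rfl⟩
      exact disjoint_toRegular (h1 v s)
    refine ⟨fun _ _ => bot_le, ?_⟩
    intro (e : mclosure m (Set.range (toRO (Alg Λ) alg_open1))) he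
    change e ≤ ⊥
    rw [le_bot_iff]
    by_contra hne
    have hne' : (e : RO (Om Λ)) ≠ ⊥ := fun h => hne (Subtype.ext h)
    obtain ⟨⟨v, x⟩, hvx⟩ := RO_ne_bot.1 hne'
    have h6 : (e : RO (Om Λ)) ≤ (γ v.length : RO (Om Λ)) := he ⟨v.length, rfl⟩
    have h7 := RO_disjoint.1 (h5 v)
    refine Set.disjoint_left.1 h7 (RO_le.1 h6 hvx) ?_
    have h8 : fib v ≤ (Regular.toRegular (fib v)).val := by
      rw [Regular.coe_toRegular]
      exact le_compl_compl
    exact h8 (show (v, x) ∈ (fib v : Set (Om Λ)) from rfl)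

end One

section Two

/-- The topology with the basis `Alg Λ`. -/
@[instance_reducible] def top2 (Λ : Type u) : TopologicalSpace (Om Λ) where
  IsOpen U := ∀ p ∈ U, ∃ a ∈ Alg Λ, p ∈ a ∧ a ⊆ U
  isOpen_univ := fun _ _ => ⟨Set.univ, BooleanSubalgebra.top_mem, trivial, Set.subset_univ _⟩
  isOpen_inter := by
    intro U V hU hV p hp
    obtain ⟨a, ha, hpa, haU⟩ := hU p hp.1
    obtain ⟨b, hb, hpb, hbV⟩ := hV p hp.2
    exact ⟨a ∩ b, BooleanSubalgebra.inf_mem ha hb, ⟨hpa, hpb⟩, Set.inter_subset_inter haU hbV⟩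
  isOpen_sUnion := by
    intro S hS p hp
    obtain ⟨U, hU, hpU⟩ := hp
    obtain ⟨a, ha, hpa, haU⟩ := hS U hU p hpU
    exact ⟨a, ha, hpa, haU.trans (Set.subset_sUnion_of_mem hU)⟩

attribute [local instance] top2

variable {Λ : Type u}

theorem isOpen_iff2 {U : Set (Om Λ)} : IsOpen U ↔ ∀ p ∈ U, ∃ a ∈ Alg Λ, p ∈ a ∧ a ⊆ U := Iff.rfl

theorem alg_open2 : ∀ a ∈ Alg Λ, IsOpen a :=
  fun a ha => isOpen_iff2.2 fun _ hp => ⟨a, ha, hp, subset_rfl⟩

theorem exists_completion (m : Cardinal.{u}) : ∃ E : Pair (Alg Λ), IsCompletion m E := by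
  refine ⟨_, mpair_isCompletion RO_lub m (toRO (Alg Λ) alg_open2) (toRO_injective _ _) ?_⟩
  intro c hc
  obtain ⟨p, hp⟩ := RO_ne_bot.1 hc
  obtain ⟨a, ha, hpa, hac⟩ := isOpen_iff2.1 c.val.isOpen p hp
  exact ⟨⟨a, ha⟩, RO_ne_bot.2 ⟨p, hpa⟩, RO_le.2 hac⟩

end Two

/-! ### `m`-completions are extensions, and the term is one in them -/

section Completion

theorem completion_joins {A : Type u} [BooleanAlgebra A] {m : Cardinal.{u}} {E : Pair A}
    (hE : IsCompletion m E) (S : Set A) (a : A) (ha : IsLUB S a) : IsLUB (E.i '' S) (E.i a) := by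
  rw [isLUB_iff]
  constructor
  · rintro _ ⟨s, hs, rfl⟩
    exact OrderHomClass.mono E.i (ha.1 hs)
  · intro c hc hd
    by_contra hne
    obtain ⟨a0, h1, h2⟩ := hE.dense c hne
    apply h1
    have h3 : a0 = ⊥ := by
      refine (isLUB_iff.1 ha).2 a0 ?_ ?_
      · have h4 : E.i (a0 ⊓ a) = E.i a0 := by
          rw [map_inf, inf_eq_left]
          exact h2.trans hc
        exact inf_eq_left.1 (hE.inj h4)
      · intro s hs
        rw [disjoint_iff]
        apply hE.inj
        rw [map_inf, map_bot]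
        exact ((hd _ ⟨s, hs, rfl⟩).mono_right h2).eq_bot
    rw [h3, map_bot]

theorem completion_isExtension {A : Type u} [BooleanAlgebra A] {m : Cardinal.{u}} {E : Pair A}
    (hE : IsCompletion m E) {J M : Set (Set A)} (hJM : Admissible m J M) : IsExtension m J M E where
  malg := hE.malg
  inj := hE.inj
  join := fun S _ a ha => completion_joins hE S a ha
  meet := fun S hS a ha =>
    preserves_meets E.i (fun T b _ hb => completion_joins hE T b hb) S a (hJM.cardM S hS) ha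
  gen := hE.gen

theorem completion_term {Λ : Type u} [Infinite Λ] {m : Cardinal.{u}} {E : Pair (Alg Λ)}
    (hE : IsCompletion m E) (β : ℕ → List Bool → E.B) (γ : ℕ → E.B)
    (hβ : ∀ i s, IsGLB (Set.range fun n => E.i (cel i s n)) (β i s))
    (hγ : ∀ i, IsLUB (Set.range (β i)) (γ i)) (i : ℕ) : γ i = ⊤ := by
  by_contra hne
  have h1 : (γ i)ᶜ ≠ ⊥ := fun h => hne (compl_eq_bot.1 h)
  obtain ⟨a, ha1, ha2⟩ := hE.dense _ h1
  have h2 : (a : Set (Om Λ)).Nonempty := by
    rw [Set.nonempty_iff_ne_empty]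
    intro h
    apply ha1
    have : a = ⊥ := Subtype.ext h
    rw [this, map_bot]
  obtain ⟨w, hw, hwa⟩ := exists_node a.2 h2 i
  let nw : Alg Λ := ⟨N w, N_mem w⟩
  have h3 : E.i nw ≤ β i (w[i]).1 := by
    refine (hβ i (w[i]).1).2 ?_
    rintro _ ⟨n, rfl⟩
    refine OrderHomClass.mono E.i ?_
    intro p (hp : w <+: p.1)
    have hlen : i < p.1.length := lt_of_lt_of_le hw hp.length_le
    change real p i n = q (w[i]).1 n
    rw [real_of_lt hlen]
    congr 2
    exact (hp.getElem hw).symm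
  have h4 : E.i nw ≤ γ i := h3.trans ((hγ i).1 ⟨_, rfl⟩)
  have h5 : E.i nw ≤ (γ i)ᶜ := le_trans (OrderHomClass.mono E.i (show nw ≤ a from hwa)) ha2
  have h6 : E.i nw = ⊥ := by
    rw [← le_bot_iff]
    calc E.i nw ≤ γ i ⊓ (γ i)ᶜ := le_inf h4 h5
      _ = ⊥ := inf_compl_self _
  have h7 : nw = ⊥ := hE.inj (by rw [h6, map_bot])
  have h8 : ((w, fun _ _ => false) : Om Λ) ∈ (nw : Set (Om Λ)) := List.prefix_refl _
  rw [h7] at h8
  exact h8

end Completion

/-! ### The main theorem -/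

theorem main {m : Cardinal.{u}} (hm : ℵ₀ ≤ m) : ∃ (A : Type u) (_ : BooleanAlgebra A),
    (∃ E : Pair A, IsCompletion m E) ∧ ∀ J M : Set (Set A), Admissible m J M →
      (∀ E : Pair A, IsCompletion m E → IsExtension m J M E ∧ ¬ IsSmallest m J M E) ∧
      ¬ ∃ E : Pair A, IsSmallest m J M E := by
  let Λ : Type u := (Order.succ m).out
  have hΛ : m < #Λ := by
    change m < #(Order.succ m).out
    rw [Cardinal.mk_out]
    exact Order.lt_succ m
  have hinf : Infinite Λ := by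
    rw [Cardinal.infinite_iff]
    exact hm.trans hΛ.le
  obtain ⟨E0, hE0⟩ := exists_completion (Λ := Λ) m
  refine ⟨Alg Λ, inferInstance, ⟨E0, hE0⟩, fun J M hJM => ?_⟩
  have key : ¬ ∃ E : Pair (Alg Λ), IsSmallest m J M E := by
    rintro ⟨E, hE, hsm⟩
    obtain ⟨E1, hE1, hterm⟩ := exists_ext (Λ := Λ) hm hΛ
    obtain ⟨h0, hh0, hi0⟩ := hsm E0 (completion_isExtension hE0 hJM)
    obtain ⟨h1, hh1, hi1⟩ := hsm E1 (hE1 J M hJM)
    have hcount : ∀ {ι : Type} [Countable ι] {B : Type u} (f : ι → B), #(Set.range f) ≤ m :=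
      fun f => ((Set.countable_range f).le_aleph0).trans hm
    -- the term in `E0`
    choose β0 hβ0 using fun i s => (hE0.malg (Set.range fun n => E0.i (cel i s n)) (hcount _)).2
    choose γ0 hγ0 using fun i => (hE0.malg (Set.range (β0 i)) (hcount _)).1
    choose β1 hβ1 using
      fun i s => ((hE1 J M hJM).malg (Set.range fun n => E1.i (cel i s n)) (hcount _)).2
    choose γ1 hγ1 using fun i => ((hE1 J M hJM).malg (Set.range (β1 i)) (hcount _)).1
    have h2 := completion_term hE0 β0 γ0 hβ0 hγ0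
    have h3 := hterm β1 γ1 hβ1 hγ1
    -- compare in `E`
    have hβ : ∀ i s, h0 (β0 i s) = h1 (β1 i s) := by
      intro i s
      have e0 := (hh0 _ _ (hcount _)).2 (hβ0 i s)
      have e1 := (hh1 _ _ (hcount _)).2 (hβ1 i s)
      rw [← Set.range_comp] at e0 e1
      have e2 : (⇑h0 ∘ fun n => E0.i (cel i s n)) = ⇑h1 ∘ fun n => E1.i (cel i s n) := by
        funext n
        simp only [Function.comp]
        rw [← hi0, ← hi1]
      rw [e2] at e0
      exact e0.unique e1
    have hγ : ∀ i, h0 (γ0 i) = h1 (γ1 i) := by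
      intro i
      have e0 := (hh0 _ _ (hcount _)).1 (hγ0 i)
      have e1 := (hh1 _ _ (hcount _)).1 (hγ1 i)
      rw [← Set.range_comp] at e0 e1
      have e2 : (⇑h0 ∘ β0 i) = ⇑h1 ∘ β1 i := by
        funext s
        exact hβ i s
      rw [e2] at e0
      exact e0.unique e1
    have h4 := (hh1 _ _ (hcount _)).2 h3
    rw [← Set.range_comp, map_bot] at h4
    have h5 : ∀ i, (⇑h1 ∘ γ1) i = ⊤ := by
      intro i
      rw [Function.comp, ← hγ i, h2 i, map_top]
    have h6 : (⊤ : E.B) ≤ ⊥ := by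
      refine h4.2 ?_
      rintro _ ⟨i, rfl⟩
      rw [h5 i]
    have h7 : E.i ⊤ = E.i ⊥ := by
      rw [map_top, map_bot]
      exact le_antisymm h6 bot_le
    have h8 := hE.inj h7
    have h9 : (([], fun _ _ => false) : Om Λ) ∈ ((⊤ : Alg Λ) : Set (Om Λ)) := trivial
    rw [h8] at h9
    exact h9
  exact ⟨fun E hE => ⟨completion_isExtension hE hJM, fun h => key ⟨E, h⟩⟩, key⟩

end Pool.Agent.D0H66.MExt
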